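import Pool.Agent.H82.Ten.Basic
import Pool.Agent.H12.San.PL1

/-!
# The multiplicative Prekopa-Leindler inequality on the orthant, and unconditional pairs
-/

open MeasureTheory Set
open scoped ENNReal

namespace Pool.Agent.H82.Ten

namespace UncA

/-- Fubini for the positive orthant. -/
theorem lint_succ (n : ℕ) {φ : (Fin (n + 1) → ℝ) → ℝ≥0∞} (hφ : Measurable φ) :
    ∫⁻ x in {x : Fin (n + 1) → ℝ | ∀ i, 0 < x i}, φ x =
      ∫⁻ s in Ioi (0 : ℝ), ∫⁻ x in {x : Fin n → ℝ | ∀ i, 0 < x i}, φ (Fin.cons s x) := by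
  have hmp := (volume_preserving_piFinSuccAbove (fun _ : Fin (n + 1) => ℝ) 0).symm
  have hS : MeasurableSet {x : Fin (n + 1) → ℝ | ∀ i, 0 < x i} := by
    have : {x : Fin (n + 1) → ℝ | ∀ i, 0 < x i} = Set.univ.pi fun _ => Ioi 0 := by
      ext x; simp
    rw [this]
    exact MeasurableSet.univ_pi fun _ => measurableSet_Ioi
  have hpre : (MeasurableEquiv.piFinSuccAbove (fun _ : Fin (n + 1) => ℝ) 0).symm ⁻¹'
      {x : Fin (n + 1) → ℝ | ∀ i, 0 < x i} = Ioi (0 : ℝ) ×ˢ {x : Fin n → ℝ | ∀ i, 0 < x i} := by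
    ext ⟨s, x⟩
    simp only [mem_preimage, mem_setOf_eq, mem_prod, mem_Ioi]
    rw [Fin.forall_fin_succ]
    simp [MeasurableEquiv.piFinSuccAbove, Fin.insertNthEquiv]
  have hm : Measurable (fun a => φ ((MeasurableEquiv.piFinSuccAbove
      (fun _ : Fin (n + 1) => ℝ) 0).symm a)) := hφ.comp hmp.measurable
  rw [← hmp.setLIntegral_comp_preimage hS hφ, hpre, Measure.volume_eq_prod,
    ← Measure.prod_restrict, lintegral_prod _ hm.aemeasurable]
  apply lintegral_congr
  intro s
  apply lintegral_congr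
  intro x
  congr 1
  simp [MeasurableEquiv.piFinSuccAbove, Fin.insertNthEquiv]

/-- Fubini for the whole space. -/
theorem lint_succ' (n : ℕ) {φ : (Fin (n + 1) → ℝ) → ℝ≥0∞} (hφ : Measurable φ) :
    ∫⁻ x, φ x = ∫⁻ s : ℝ, ∫⁻ x : Fin n → ℝ, φ (Fin.cons s x) := by
  have hmp := (volume_preserving_piFinSuccAbove (fun _ : Fin (n + 1) => ℝ) 0).symm
  have hm : Measurable (fun a => φ ((MeasurableEquiv.piFinSuccAbove
      (fun _ : Fin (n + 1) => ℝ) 0).symm a)) := hφ.comp hmp.measurable
  rw [← hmp.lintegral_comp hφ, Measure.volume_eq_prod, lintegral_prod _ hm.aemeasurable]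
  apply lintegral_congr
  intro s
  apply lintegral_congr
  intro x
  congr 1
  simp [MeasurableEquiv.piFinSuccAbove, Fin.insertNthEquiv]

theorem measurable_cons (n : ℕ) :
    Measurable (fun p : ℝ × (Fin n → ℝ) => (Fin.cons p.1 p.2 : Fin (n + 1) → ℝ)) := by
  rw [measurable_pi_iff]
  intro i
  refine Fin.cases ?_ (fun j => ?_) i
  · simpa using measurable_fst
  · simp only [Fin.cons_succ]
    fun_prop

theorem lint_even {φ : ℝ → ℝ≥0∞} (hφ : Measurable φ) (he : ∀ s, φ (-s) = φ s) :
    ∫⁻ s, φ s = 2 * ∫⁻ s in Ioi (0 : ℝ), φ s := by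
  have h1 : ∫⁻ s in Iio (0 : ℝ), φ s = ∫⁻ s in Ioi (0 : ℝ), φ s := by
    rw [← (Measure.measurePreserving_neg (volume : Measure ℝ)).setLIntegral_comp_preimage
      measurableSet_Iio hφ]
    have : (Neg.neg ⁻¹' Iio (0 : ℝ)) = Ioi (0 : ℝ) := by
      ext x; simp
    rw [this]
    exact lintegral_congr fun s => he s
  rw [← lintegral_add_compl φ (measurableSet_Ioi : MeasurableSet (Ioi (0 : ℝ)))]
  rw [show (Ioi (0 : ℝ))ᶜ = Iic 0 by ext x; simp, setLIntegral_congr Iio_ae_eq_Iic.symm, h1]
  ring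

/-- The integral of a function which is even in every coordinate. -/
theorem lint_unc (n : ℕ) : ∀ {φ : (Fin n → ℝ) → ℝ≥0∞}, Measurable φ →
    (∀ x, ∀ ε : Fin n → ℝ, (∀ i, ε i = 1 ∨ ε i = -1) → φ (fun i => ε i * x i) = φ x) →
    ∫⁻ x, φ x = 2 ^ n * ∫⁻ x in {x : Fin n → ℝ | ∀ i, 0 < x i}, φ x := by
  induction n with
  | zero =>
    intro φ _ _
    have : {x : Fin 0 → ℝ | ∀ i, 0 < x i} = univ := by
      ext x; simp
    rw [this, Measure.restrict_univ, pow_zero, one_mul]
  | succ n ih =>
    intro φ hφ he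
    rw [lint_succ' n hφ, lint_succ n hφ]
    have hm : ∀ s, Measurable (fun x : Fin n → ℝ => φ (Fin.cons s x)) := fun s =>
      hφ.comp ((measurable_cons n).comp (measurable_const.prodMk measurable_id))
    have h1 : ∀ s, ∫⁻ x : Fin n → ℝ, φ (Fin.cons s x) =
        2 ^ n * ∫⁻ x in {x : Fin n → ℝ | ∀ i, 0 < x i}, φ (Fin.cons s x) := by
      intro s
      apply ih (hm s)
      intro x ε hε
      have h2 := he (Fin.cons s x) (Fin.cons 1 ε) (by
        intro i
        refine Fin.cases ?_ (fun j => ?_) i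
        · left; rfl
        · simpa using hε j)
      rw [← h2]
      congr 1
      funext i
      refine Fin.cases ?_ (fun j => ?_) i
      · simp
      · simp
    simp_rw [h1]
    have hmeas : Measurable (fun s : ℝ =>
        ∫⁻ x in {x : Fin n → ℝ | ∀ i, 0 < x i}, φ (Fin.cons s x)) :=
      Measurable.lintegral_prod_right' (hφ.comp (measurable_cons n))
    rw [lint_even (hmeas.const_mul _), lintegral_const_mul _ hmeas, pow_succ]
    · ring
    · intro s
      congr 1
      apply lintegral_congr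
      intro x
      have h2 := he (Fin.cons s x) (Fin.cons (-1) (fun _ => 1)) (by
        intro i
        refine Fin.cases ?_ (fun j => ?_) i
        · right; rfl
        · left; simp)
      rw [← h2]
      congr 1
      funext i
      refine Fin.cases ?_ (fun j => ?_) i
      · simp
      · simp

end UncA

open UncA

/-- U2: multiplicative Prekopa-Leindler inequality on the positive orthant -/
theorem mulPLn (n : ℕ) {φ ψ h : (Fin n → ℝ) → ℝ≥0∞} (hφ : Measurable φ) (hψ : Measurable ψ)
    (hh : Measurable h) (H : ∀ x y : Fin n → ℝ, (∀ i, 0 < x i) → (∀ i, 0 < y i) →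
      φ x * ψ y ≤ h (fun i => √(x i * y i)) ^ 2) :
    (∫⁻ x in {x : Fin n → ℝ | ∀ i, 0 < x i}, φ x) * (∫⁻ x in {x : Fin n → ℝ | ∀ i, 0 < x i}, ψ x) ≤
      (∫⁻ x in {x : Fin n → ℝ | ∀ i, 0 < x i}, h x) ^ 2 := by
  induction n with
  | zero =>
    have h1 : {x : Fin 0 → ℝ | ∀ i, 0 < x i} = univ := by
      ext x; simp
    have h2 : ∀ f : (Fin 0 → ℝ) → ℝ≥0∞, ∫⁻ x in {x : Fin 0 → ℝ | ∀ i, 0 < x i}, f x =
        f (fun i => i.elim0) := by
      intro f
      rw [h1, Measure.restrict_univ, lintegral_unique]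
      have : volume (univ : Set (Fin 0 → ℝ)) = 1 := by
        rw [volume_pi, Measure.pi_univ]; simp
      rw [this, mul_one]
      congr 1
    rw [h2, h2, h2]
    have h3 := H (fun i => i.elim0) (fun i => i.elim0) (fun i => i.elim0) (fun i => i.elim0)
    have h4 : (fun i : Fin 0 => √((i.elim0 : ℝ) * (i.elim0 : ℝ))) = fun i => i.elim0 :=
      funext fun i => i.elim0
    rw [h4] at h3
    exact h3
  | succ n ih =>
    rw [lint_succ n hφ, lint_succ n hψ, lint_succ n hh]
    have hm : ∀ {f : (Fin (n + 1) → ℝ) → ℝ≥0∞}, Measurable f → ∀ s,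
        Measurable (fun x : Fin n → ℝ => f (Fin.cons s x)) := fun hf s =>
      hf.comp ((measurable_cons n).comp (measurable_const.prodMk measurable_id))
    apply Pool.Agent.H12.San.mulPL
    · exact Measurable.lintegral_prod_right' (hφ.comp (measurable_cons n))
    · exact Measurable.lintegral_prod_right' (hψ.comp (measurable_cons n))
    · exact Measurable.lintegral_prod_right' (hh.comp (measurable_cons n))
    · intro s hs t ht
      apply ih (hm hφ s) (hm hψ t) (hm hh _)
      intro x y hx hy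
      have h3 := H (Fin.cons s x) (Fin.cons t y) (by
          intro i
          refine Fin.cases ?_ (fun j => ?_) i
          · simpa using hs
          · simpa using hx j) (by
          intro i
          refine Fin.cases ?_ (fun j => ?_) i
          · simpa using ht
          · simpa using hy j)
      convert h3 using 3
      funext i
      refine Fin.cases ?_ (fun j => ?_) i
      · simp
      · simp

/-- A convex unconditional set is solid. -/
theorem UncA.solid {n : ℕ} {T : Set (Fin n → ℝ)} (hT : Convex ℝ T)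
    (hTu : ∀ x ∈ T, ∀ ε : Fin n → ℝ, (∀ i, ε i = 1 ∨ ε i = -1) → (fun i => ε i * x i) ∈ T)
    (w z : Fin n → ℝ) (hw : w ∈ T) (hz0 : ∀ i, 0 ≤ z i) (hz : ∀ i, z i ≤ w i) : z ∈ T := by
  have h1 : z ∈ univ.pi fun i => convexHull ℝ ({w i, -w i} : Set ℝ) := by
    intro i _
    change z i ∈ convexHull ℝ ({w i, -w i} : Set ℝ)
    rw [convexHull_pair]
    have h0 : 0 ≤ w i := (hz0 i).trans (hz i)
    rw [segment_symm, segment_eq_Icc (by linarith)]
    exact ⟨by linarith [hz0 i], hz i⟩
  rw [← convexHull_pi] at h1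
  refine (convexHull_min ?_ hT) h1
  intro x hx
  have h2 : ∀ i, ∃ e : ℝ, (e = 1 ∨ e = -1) ∧ x i = e * w i := by
    intro i
    rcases hx i (mem_univ i) with h | h
    · exact ⟨1, Or.inl rfl, by rw [h, one_mul]⟩
    · exact ⟨-1, Or.inr rfl, by rw [h]; ring⟩
  choose e he hxe using h2
  have h3 := hTu w hw e he
  convert h3 using 1
  funext i
  exact hxe i

/-- U3: unconditional pairs -/
theorem unc_pair {n : ℕ} {T : Set (Fin n → ℝ)} (hT : Convex ℝ T) (hTc : IsCompact T)
    (hTu : ∀ x ∈ T, ∀ ε : Fin n → ℝ, (∀ i, ε i = 1 ∨ ε i = -1) → (fun i => ε i * x i) ∈ T) {c : ℝ}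
    {K L : Set (Fin n → ℝ)} (hK : IsCompact K) (hL : IsCompact L) (hKT : K ⊆ T) (hLT : L ⊆ T)
    (hKu : ∀ x ∈ K, ∀ ε : Fin n → ℝ, (∀ i, ε i = 1 ∨ ε i = -1) → (fun i => ε i * x i) ∈ K)
    (hLu : ∀ x ∈ L, ∀ ε : Fin n → ℝ, (∀ i, ε i = 1 ∨ ε i = -1) → (fun i => ε i * x i) ∈ L)
    (hKL : ∀ x ∈ K, ∀ y ∈ L, x ⬝ᵥ y < c) :
    volume K * volume L ≤ volume {x | x ∈ T ∧ x ⬝ᵥ x < c} ^ 2 := by
  have hM : MeasurableSet {x : Fin n → ℝ | x ∈ T ∧ x ⬝ᵥ x < c} :=
    hTc.measurableSet.inter (measurableSet_lt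
      (Finset.measurable_sum _ fun i _ => (measurable_pi_apply i).mul (measurable_pi_apply i))
      measurable_const)
  set M := {x : Fin n → ℝ | x ∈ T ∧ x ⬝ᵥ x < c} with hMdef
  have hvol : ∀ A : Set (Fin n → ℝ), MeasurableSet A →
      (∀ x ∈ A, ∀ ε : Fin n → ℝ, (∀ i, ε i = 1 ∨ ε i = -1) → (fun i => ε i * x i) ∈ A) →
      volume A = 2 ^ n * ∫⁻ x in {x : Fin n → ℝ | ∀ i, 0 < x i}, A.indicator 1 x := by
    intro A hA hAu
    rw [← lintegral_indicator_one hA]
    apply lint_unc n (measurable_one.indicator hA)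
    intro x ε hε
    by_cases hx : x ∈ A
    · rw [indicator_of_mem hx, indicator_of_mem (hAu x hx ε hε)]; rfl
    · rw [indicator_of_notMem hx, indicator_of_notMem]
      intro hcon
      apply hx
      have h1 := hAu _ hcon ε hε
      convert h1 using 1
      funext i
      rcases hε i with h | h <;> rw [h] <;> ring
  have hMu : ∀ x ∈ M, ∀ ε : Fin n → ℝ, (∀ i, ε i = 1 ∨ ε i = -1) → (fun i => ε i * x i) ∈ M := by
    rintro x ⟨hx1, hx2⟩ ε hε
    refine ⟨hTu x hx1 ε hε, ?_⟩
    have : (fun i => ε i * x i) ⬝ᵥ (fun i => ε i * x i) = x ⬝ᵥ x := by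
      unfold dotProduct
      apply Finset.sum_congr rfl
      intro i _
      simp only
      rcases hε i with h | h <;> rw [h] <;> ring
    rw [this]
    exact hx2
  rw [hvol K hK.measurableSet hKu, hvol L hL.measurableSet hLu, hvol M hM hMu]
  have key := mulPLn n (φ := K.indicator 1) (ψ := L.indicator 1) (h := M.indicator 1)
    (measurable_one.indicator hK.measurableSet) (measurable_one.indicator hL.measurableSet)
    (measurable_one.indicator hM) (by
      intro x y hx hy
      by_cases hxK : x ∈ K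
      · by_cases hyL : y ∈ L
        · have hzM : (fun i => √(x i * y i)) ∈ M := by
            refine ⟨?_, ?_⟩
            · have hmid : (fun i => (x i + y i) / 2) ∈ T := by
                have h1 := hT (hKT hxK) (hLT hyL) (by norm_num : (0 : ℝ) ≤ 1 / 2)
                  (by norm_num : (0 : ℝ) ≤ 1 / 2) (by norm_num)
                convert h1 using 1
                funext i
                simp only [Pi.add_apply, Pi.smul_apply, smul_eq_mul]
                ring
              refine UncA.solid hT hTu _ _ hmid (fun i => Real.sqrt_nonneg _) (fun i => ?_)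
              rw [Real.sqrt_le_left (by linarith [hx i, hy i])]
              nlinarith [sq_nonneg (x i - y i)]
            · have : (fun i => √(x i * y i)) ⬝ᵥ (fun i => √(x i * y i)) = x ⬝ᵥ y := by
                unfold dotProduct
                apply Finset.sum_congr rfl
                intro i _
                exact Real.mul_self_sqrt (mul_nonneg (hx i).le (hy i).le)
              rw [this]
              exact hKL x hxK y hyL
          rw [indicator_of_mem hxK, indicator_of_mem hyL, indicator_of_mem hzM]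
          simp
        · rw [indicator_of_notMem hyL, mul_zero]
          exact zero_le
      · rw [indicator_of_notMem hxK, zero_mul]
        exact zero_le)
  calc _ = (2 ^ n) ^ 2 * ((∫⁻ x in {x : Fin n → ℝ | ∀ i, 0 < x i}, K.indicator 1 x) *
        ∫⁻ x in {x : Fin n → ℝ | ∀ i, 0 < x i}, L.indicator 1 x) := by ring
    _ ≤ (2 ^ n) ^ 2 * (∫⁻ x in {x : Fin n → ℝ | ∀ i, 0 < x i}, M.indicator 1 x) ^ 2 := by
      gcongr
    _ = _ := by ring

end Pool.Agent.H82.Ten
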