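import Pool.Agent.H82.Ten.Basic
import Pool.Agent.H12.San.PLn

/-!
# Products of bodies: Brunn-Minkowski for half differences
-/

open MeasureTheory Set
open scoped ENNReal

namespace Pool.Agent.H82.Ten

/-- Brunn-Minkowski for half differences, index type `Fin n` -/
theorem hd_fin {n : ℕ} {A D : Set (Fin n → ℝ)} (hA : MeasurableSet A) (hD : MeasurableSet D)
    (H : ∀ x ∈ A, ∀ y ∈ A, (1 / 2 : ℝ) • (x - y) ∈ D) : volume A ≤ volume D := by
  have hneg : volume (-A) = volume A := Measure.measure_neg _ _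
  have h0 : (∫⁻ x, A.indicator (fun _ => (1 : ℝ≥0∞)) x) ^ (1 / 2 : ℝ) *
      (∫⁻ x, (-A).indicator (fun _ => (1 : ℝ≥0∞)) x) ^ (1 / 2 : ℝ) ≤
      ∫⁻ x, D.indicator (fun _ => (1 : ℝ≥0∞)) x := by
    apply Pool.Agent.H12.San.pln n (by norm_num) (by norm_num) (by norm_num)
      (measurable_const.indicator hA) (measurable_const.indicator hA.neg)
      (measurable_const.indicator hD)
    intro x y
    by_cases hx : x ∈ A
    · by_cases hy : y ∈ -A
      · have : (1 / 2 : ℝ) • x + (1 / 2 : ℝ) • y ∈ D := by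
          have := H x hx (-y) hy
          rwa [sub_neg_eq_add, smul_add] at this
        rw [indicator_of_mem hx, indicator_of_mem hy, indicator_of_mem this]
        simp
      · rw [indicator_of_notMem hy, ENNReal.zero_rpow_of_pos (by norm_num)]
        simp
    · rw [indicator_of_notMem hx, ENNReal.zero_rpow_of_pos (by norm_num)]
      simp
  rw [lintegral_indicator hA, lintegral_indicator hA.neg, lintegral_indicator hD] at h0
  simp only [lintegral_const, one_mul, Measure.restrict_apply_univ] at h0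
  rw [hneg, ← ENNReal.rpow_add_of_nonneg _ _ (by norm_num) (by norm_num)] at h0
  norm_num at h0
  exact h0

/-- Brunn-Minkowski for half differences -/
theorem hd {κ : Type*} [Fintype κ] {A D : Set (κ → ℝ)} (hA : MeasurableSet A)
    (hD : MeasurableSet D)
    (H : ∀ x ∈ A, ∀ y ∈ A, (1 / 2 : ℝ) • (x - y) ∈ D) : volume A ≤ volume D := by
  let e := Fintype.equivFin κ
  let φ : (κ → ℝ) ≃ᵐ (Fin (Fintype.card κ) → ℝ) := MeasurableEquiv.piCongrLeft (fun _ => ℝ) e
  have mp : MeasurePreserving φ volume volume := volume_measurePreserving_piCongrLeft (fun _ => ℝ) e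
  have mp' : MeasurePreserving φ.symm volume volume := mp.symm φ
  rw [← mp'.measure_preimage hA.nullMeasurableSet, ← mp'.measure_preimage hD.nullMeasurableSet]
  apply hd_fin (φ.symm.measurable hA) (φ.symm.measurable hD)
  intro x hx y hy
  exact H _ hx _ hy

/-- Brunn-Minkowski: `|(A - A) / 2| ≥ |A|` for compact `A` -/
theorem bm_half {κ : Type*} [Fintype κ] {A : Set (κ → ℝ)} (hA : IsCompact A) :
    volume A ≤ volume ((fun q : (κ → ℝ) × (κ → ℝ) => (2⁻¹ : ℝ) • (q.1 - q.2)) '' (A ×ˢ A)) := by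
  have hc : IsCompact ((fun q : (κ → ℝ) × (κ → ℝ) => (2⁻¹ : ℝ) • (q.1 - q.2)) '' (A ×ˢ A)) :=
    (hA.prod hA).image (by fun_prop)
  apply hd hA.measurableSet hc.measurableSet
  intro x hx y hy
  exact ⟨(x, y), ⟨hx, hy⟩, by simp only [one_div]⟩

end Pool.Agent.H82.Ten
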