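import Pool.Agent.H82.Ten.Basic
import Pool.Agent.H82.Ten.BM

/-!
# Reduction of dual pairs to unconditional pairs
-/

open MeasureTheory Set
open scoped ENNReal

namespace Pool.Agent.H82.Ten

section dp

variable {ι : Type*}

/-- half differences in the coordinates of `p` -/
noncomputable def dpm (p : ι → Prop) [DecidablePred p] (q : (ι → ℝ) × (ι → ℝ)) : ι → ℝ :=
  fun j => if p j then (q.1 j - q.2 j) / 2 else q.1 j

/-- half differences of the points of `A` that agree off `p` -/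
def Dp (p : ι → Prop) [DecidablePred p] (A : Set (ι → ℝ)) : Set (ι → ℝ) :=
  dpm p '' {q | q.1 ∈ A ∧ q.2 ∈ A ∧ ∀ j, ¬ p j → q.1 j = q.2 j}

lemma isCompact_Dp (p : ι → Prop) [DecidablePred p] {A : Set (ι → ℝ)} (hA : IsCompact A) :
    IsCompact (Dp p A) := by
  have h1 : {q : (ι → ℝ) × (ι → ℝ) | q.1 ∈ A ∧ q.2 ∈ A ∧ ∀ j, ¬ p j → q.1 j = q.2 j} =
      (A ×ˢ A) ∩ {q | ∀ j, ¬ p j → q.1 j = q.2 j} := by
    ext q
    simp only [mem_ofPred_eq, mem_inter_iff, mem_prod, and_assoc]
  have h2 : IsClosed {q : (ι → ℝ) × (ι → ℝ) | ∀ j, ¬ p j → q.1 j = q.2 j} := by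
    simp only [ofPred_forall]
    refine isClosed_iInter fun j => isClosed_iInter fun _ => ?_
    exact isClosed_eq (by fun_prop) (by fun_prop)
  unfold Dp
  rw [h1]
  refine ((hA.prod hA).inter_right h2).image ?_
  refine continuous_pi fun j => ?_
  unfold dpm
  by_cases hj : p j
  · simp only [hj, if_true]
    fun_prop
  · simp only [hj, if_false]
    fun_prop

/-- Brunn-Minkowski on the fibres. -/
lemma volume_le_Dp [Fintype ι] (p : ι → Prop) [DecidablePred p] {A : Set (ι → ℝ)}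
    (hA : IsCompact A) : volume A ≤ volume (Dp p A) := by
  let e := MeasurableEquiv.piEquivPiSubtypeProd (fun _ : ι => ℝ) p
  have he : MeasurePreserving e volume volume :=
    volume_preserving_piEquivPiSubtypeProd (fun _ : ι => ℝ) p
  have hes : ∀ s z j, e.symm (s, z) j = if h : p j then s ⟨j, h⟩ else z ⟨j, h⟩ := fun s z j => rfl
  have key : ∀ B : Set (ι → ℝ), MeasurableSet B →
      volume B = ∫⁻ z, volume ((fun s => (s, z)) ⁻¹' (e.symm ⁻¹' B)) := by
    intro B hB
    rw [← (he.symm e).measure_preimage hB.nullMeasurableSet, Measure.volume_eq_prod,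
      Measure.prod_apply_symm (e.symm.measurable hB)]
  rw [key A hA.measurableSet, key (Dp p A) (isCompact_Dp p hA).measurableSet]
  refine lintegral_mono fun z => ?_
  set Az : Set ({j // p j} → ℝ) := (fun s => (s, z)) ⁻¹' (e.symm ⁻¹' A) with hAz
  have hAzc : IsCompact Az := by
    have h1 : Az = (fun (x : ι → ℝ) (j : {j // p j}) => x j) ''
        (A ∩ {x | ∀ j : {j // ¬ p j}, x j = z j}) := by
      ext s
      constructor
      · intro hs
        refine ⟨e.symm (s, z), ⟨hs, ?_⟩, ?_⟩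
        · intro j
          rw [hes, dif_neg j.2]
        · funext j
          change e.symm (s, z) (j : ι) = s j
          rw [hes, dif_pos j.2]
      · rintro ⟨x, ⟨hx, hxz⟩, rfl⟩
        have h2 : e.symm ((fun j : {j // p j} => x j), z) = x := by
          funext j
          rw [hes]
          split_ifs with h
          · rfl
          · exact (hxz ⟨j, h⟩).symm
        change e.symm ((fun j : {j // p j} => x j), z) ∈ A
        rw [h2]
        exact hx
    rw [h1]
    have h2 : IsClosed {x : ι → ℝ | ∀ j : {j // ¬ p j}, x j = z j} := by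
      simp only [ofPred_forall]
      exact isClosed_iInter fun j => isClosed_eq (by fun_prop) (by fun_prop)
    exact (hA.inter_right h2).image (by fun_prop)
  refine (bm_half hAzc).trans (measure_mono ?_)
  rintro _ ⟨⟨s1, s2⟩, ⟨h1, h2⟩, rfl⟩
  change e.symm ((2⁻¹ : ℝ) • (s1 - s2), z) ∈ Dp p A
  refine ⟨(e.symm (s1, z), e.symm (s2, z)), ⟨h1, h2, ?_⟩, ?_⟩
  · intro j hj
    simp only [hes, dif_neg hj]
  · funext j
    simp only [dpm, hes]
    split_ifs with h
    · simp only [Pi.smul_apply, Pi.sub_apply, smul_eq_mul]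
      ring
    · rfl

lemma Dp_sub {T : Set (ι → ℝ)} (hT : Convex ℝ T)
    (hTu : ∀ x ∈ T, ∀ ε : ι → ℝ, (∀ i, ε i = 1 ∨ ε i = -1) → (fun i => ε i * x i) ∈ T)
    (p : ι → Prop) [DecidablePred p] {A : Set (ι → ℝ)} (hA : A ⊆ T) : Dp p A ⊆ T := by
  rintro _ ⟨⟨x1, x2⟩, ⟨h1, h2, h3⟩, rfl⟩
  have h4 := hTu x2 (hA h2) (fun j => if p j then -1 else 1) (fun j => by
    by_cases hj : p j
    · right; simp [hj]
    · left; simp [hj])
  have h5 := hT (hA h1) h4 (by norm_num : (0 : ℝ) ≤ 1 / 2) (by norm_num : (0 : ℝ) ≤ 1 / 2)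
    (by norm_num)
  convert h5 using 1
  funext j
  simp only [dpm, Pi.add_apply, Pi.smul_apply, smul_eq_mul]
  split_ifs with h
  · ring
  · have := h3 j h
    simp only at this
    rw [← this]
    ring

lemma Dp_diag (p : ι → Prop) [DecidablePred p] {A : Set (ι → ℝ)} (ε : ι → ℝ)
    (hA : ∀ x ∈ A, (fun i => ε i * x i) ∈ A) : ∀ x ∈ Dp p A, (fun i => ε i * x i) ∈ Dp p A := by
  rintro _ ⟨⟨x1, x2⟩, ⟨h1, h2, h3⟩, rfl⟩
  refine ⟨((fun i => ε i * x1 i), (fun i => ε i * x2 i)), ⟨hA _ h1, hA _ h2, ?_⟩, ?_⟩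
  · intro j hj
    have := h3 j hj
    simp only at this ⊢
    rw [this]
  · funext j
    simp only [dpm]
    split_ifs with h
    · ring
    · rfl

lemma Dp_neg (p : ι → Prop) [DecidablePred p] {A : Set (ι → ℝ)}
    (hA : ∀ x ∈ A, -x ∈ A) : ∀ x ∈ Dp p A, -x ∈ Dp p A := by
  have h := Dp_diag p (A := A) (fun _ => -1) (fun x hx => by
    have := hA x hx
    convert this using 1
    funext j
    simp)
  intro x hx
  have := h x hx
  convert this using 1
  funext j
  simp

end dp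

variable {ι : Type*} [Fintype ι]

lemma tus_step [DecidableEq ι] {T : Set (ι → ℝ)} (hT : Convex ℝ T)
    (hTu : ∀ x ∈ T, ∀ ε : ι → ℝ, (∀ i, ε i = 1 ∨ ε i = -1) → (fun i => ε i * x i) ∈ T) {c : ℝ}
    {K L : Set (ι → ℝ)} (hK : IsCompact K) (hL : IsCompact L) (hKs : ∀ x ∈ K, -x ∈ K)
    (hLs : ∀ x ∈ L, -x ∈ L) (hKT : K ⊆ T) (hLT : L ⊆ T) (hKL : ∀ x ∈ K, ∀ y ∈ L, x ⬝ᵥ y < c)
    (S : Finset ι) :
    ∃ K' L' : Set (ι → ℝ), IsCompact K' ∧ IsCompact L' ∧ (∀ x ∈ K', -x ∈ K') ∧
      (∀ x ∈ L', -x ∈ L') ∧ K' ⊆ T ∧ L' ⊆ T ∧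
      (∀ i ∈ S, ∀ x ∈ K', (fun j => (if j = i then (-1 : ℝ) else 1) * x j) ∈ K') ∧
      (∀ i ∈ S, ∀ x ∈ L', (fun j => (if j = i then (-1 : ℝ) else 1) * x j) ∈ L') ∧
      (∀ x ∈ K', ∀ y ∈ L', x ⬝ᵥ y < c) ∧ volume K ≤ volume K' ∧ volume L ≤ volume L' := by
  induction S using Finset.induction_on with
  | empty =>
    exact ⟨K, L, hK, hL, hKs, hLs, hKT, hLT, by simp, by simp, hKL, le_rfl, le_rfl⟩
  | insert i S _ ih =>
    obtain ⟨K', L', h1, h2, h3, h4, h5, h6, h7, h8, h9, h10, h11⟩ := ih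
    refine ⟨Dp (fun j => j = i) K', Dp (fun j => j ≠ i) L', isCompact_Dp _ h1, isCompact_Dp _ h2,
      Dp_neg _ h3, Dp_neg _ h4, Dp_sub hT hTu _ h5, Dp_sub hT hTu _ h6, ?_, ?_, ?_,
      h10.trans (volume_le_Dp _ h1), h11.trans (volume_le_Dp _ h2)⟩
    · intro k hk x hx
      rcases Finset.mem_insert.1 hk with rfl | hk
      · obtain ⟨⟨x1, x2⟩, ⟨hx1, hx2, hx3⟩, rfl⟩ := hx
        refine ⟨(x2, x1), ⟨hx2, hx1, fun j hj => (hx3 j hj).symm⟩, ?_⟩
        funext j
        simp only [dpm]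
        split_ifs with h
        · ring
        · rw [one_mul]
          exact (hx3 j h).symm
      · exact Dp_diag _ _ (h7 k hk) x hx
    · intro k hk x hx
      rcases Finset.mem_insert.1 hk with rfl | hk
      · obtain ⟨⟨x1, x2⟩, ⟨hx1, hx2, hx3⟩, rfl⟩ := hx
        refine ⟨(-x2, -x1), ⟨h4 _ hx2, h4 _ hx1, fun j hj => ?_⟩, ?_⟩
        · have := hx3 j hj
          simp only [Pi.neg_apply] at this ⊢
          rw [this]
        · funext j
          simp only [dpm, Pi.neg_apply]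
          by_cases h : j = k
          · have := hx3 j (by simp [h])
            simp only at this
            simp only [h, ne_eq, not_true_eq_false, if_false, if_true]
            rw [h] at this
            rw [this]
            ring
          · simp only [h, ne_eq, not_false_eq_true, if_true, if_false]
            ring
      · exact Dp_diag _ _ (h8 k hk) x hx
    · rintro _ ⟨⟨x1, x2⟩, ⟨hx1, hx2, hx3⟩, rfl⟩ _ ⟨⟨y1, y2⟩, ⟨hy1, hy2, hy3⟩, rfl⟩
      have ha := h9 x1 hx1 y1 hy1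
      have hb := h9 x2 hx2 (-y2) (h4 y2 hy2)
      have hc : dpm (fun j => j = i) (x1, x2) ⬝ᵥ dpm (fun j => j ≠ i) (y1, y2) =
          (1 / 2) * (x1 ⬝ᵥ y1) + (1 / 2) * (x2 ⬝ᵥ (-y2)) := by
        simp only [dotProduct, Finset.mul_sum, ← Finset.sum_add_distrib]
        refine Finset.sum_congr rfl fun j _ => ?_
        simp only [dpm, Pi.neg_apply]
        by_cases h : j = i
        · have := hy3 j (by simp [h])
          simp only at this
          simp only [h, ne_eq, not_true_eq_false, if_false, if_true]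
          rw [h] at this
          rw [this]
          ring
        · have := hx3 j h
          simp only at this
          simp only [h, ne_eq, not_false_eq_true, if_true, if_false]
          rw [this]
          ring
      rw [hc]
      linarith

/-- U1, TenUncSym.lean: reduction to pairs that are symmetric in every coordinate. T is unconditional -/
theorem symm_coord [DecidableEq ι] {T : Set (ι → ℝ)} (hT : Convex ℝ T)
    (hTu : ∀ x ∈ T, ∀ ε : ι → ℝ, (∀ i, ε i = 1 ∨ ε i = -1) → (fun i => ε i * x i) ∈ T) {c : ℝ}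
    {K L : Set (ι → ℝ)} (hK : IsCompact K) (hL : IsCompact L) (hKs : ∀ x ∈ K, -x ∈ K)
    (hLs : ∀ x ∈ L, -x ∈ L) (hKT : K ⊆ T) (hLT : L ⊆ T) (hKL : ∀ x ∈ K, ∀ y ∈ L, x ⬝ᵥ y < c) :
    ∃ K' L' : Set (ι → ℝ), IsCompact K' ∧ IsCompact L' ∧ K' ⊆ T ∧ L' ⊆ T ∧
      (∀ x ∈ K', ∀ ε : ι → ℝ, (∀ i, ε i = 1 ∨ ε i = -1) → (fun i => ε i * x i) ∈ K') ∧
      (∀ x ∈ L', ∀ ε : ι → ℝ, (∀ i, ε i = 1 ∨ ε i = -1) → (fun i => ε i * x i) ∈ L') ∧
      (∀ x ∈ K', ∀ y ∈ L', x ⬝ᵥ y < c) ∧ volume K ≤ volume K' ∧ volume L ≤ volume L' := by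
  obtain ⟨K', L', h1, h2, -, -, h5, h6, h7, h8, h9, h10, h11⟩ :=
    tus_step hT hTu hK hL hKs hLs hKT hLT hKL Finset.univ
  have hinv : ∀ A : Set (ι → ℝ),
      (∀ i ∈ (Finset.univ : Finset ι), ∀ x ∈ A, (fun j => (if j = i then (-1 : ℝ) else 1) * x j) ∈ A) →
      ∀ x ∈ A, ∀ ε : ι → ℝ, (∀ i, ε i = 1 ∨ ε i = -1) → (fun i => ε i * x i) ∈ A := by
    intro A hA x hx ε hε
    have hF : ∀ F : Finset ι, (fun j => (if j ∈ F then ε j else 1) * x j) ∈ A := by
      intro F
      induction F using Finset.induction_on with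
      | empty => simpa using hx
      | insert i F hi ih =>
        rcases hε i with h | h
        · convert ih using 1
          funext j
          by_cases hj : j = i
          · subst hj
            simp [h, hi]
          · simp [hj]
        · have := hA i (Finset.mem_univ i) _ ih
          convert this using 1
          funext j
          by_cases hj : j = i
          · subst hj
            simp [h, hi]
          · simp [hj]
    have := hF Finset.univ
    simpa using this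
  exact ⟨K', L', h1, h2, h5, h6, hinv K' h7, hinv L' h8, h9, h10, h11⟩

end Pool.Agent.H82.Ten
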