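import Pool.Agent.H82.Ten.TenGGa
import Pool.Agent.H82.Ten.TenUncSym
import Pool.Agent.H82.Ten.TenUncPL

/-!
# The inequality for unconditional bodies
-/

open MeasureTheory Set
open scoped ENNReal

namespace Pool.Agent.H82.Ten

/-- U4: unconditional convex compact bodies satisfy the inequality. -/
theorem GG_unc {n : ℕ} {T : Set (Fin n → ℝ)} (hT : Convex ℝ T) (hTc : IsCompact T)
    (hTu : ∀ x ∈ T, ∀ ε : Fin n → ℝ, (∀ i, ε i = 1 ∨ ε i = -1) → (fun i => ε i * x i) ∈ T) :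
    GG T := by
  apply GG_of_compact
  intro c K L hK hL hKs hLs hKT hLT hKL
  obtain ⟨K', L', hK', hL', hKT', hLT', hKu, hLu, hKL', hvK, hvL⟩ :=
    symm_coord hT hTu hK hL hKs hLs hKT hLT hKL
  exact (mul_le_mul' hvK hvL).trans (unc_pair hT hTc hTu hK' hL' hKT' hLT' hKu hLu hKL')

end Pool.Agent.H82.Ten
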