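import Mathlib

/-!
# Products of bodies: the basic definition
-/

open MeasureTheory Set

namespace Pool.Agent.H82.Ten

/-- The inequality for the body `T`, for all dual pairs `K, L` and in all scales. -/
def GG {ι : Type*} [Fintype ι] (T : Set (ι → ℝ)) : Prop :=
  ∀ (c : ℝ) (K L : Set (ι → ℝ)), MeasurableSet K → MeasurableSet L → (∀ x ∈ K, -x ∈ K) →
    (∀ x ∈ L, -x ∈ L) → K ⊆ T → L ⊆ T → (∀ x ∈ K, ∀ y ∈ L, x ⬝ᵥ y < c) →
    volume K * volume L ≤ volume {x | x ∈ T ∧ x ⬝ᵥ x < c} ^ 2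

end Pool.Agent.H82.Ten
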