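import Pool.Agent.H82.Ten.TenGG

/-!
# Products of bodies: finite products and the statement in Euclidean space
-/

open MeasureTheory Set Filter Topology
open scoped ENNReal

namespace Pool.Agent.H82.Ten

/-- the case of an empty index type -/
theorem GG_emp {ι : Type*} [Fintype ι] [IsEmpty ι] (T : Set (ι → ℝ)) : GG T := by
  intro c K L hK hL hKs hLs hKT hLT hKL
  rcases K.eq_empty_or_nonempty with rfl | ⟨a, ha⟩
  · simp
  rcases L.eq_empty_or_nonempty with rfl | ⟨b, hb⟩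
  · simp
  rw [sq]
  have h1 : ∀ x ∈ T, x ∈ {x | x ∈ T ∧ x ⬝ᵥ x < c} := by
    intro x hx
    refine ⟨hx, ?_⟩
    have := hKL a ha b hb
    rwa [Subsingleton.elim a x, Subsingleton.elim b x] at this
  exact mul_le_mul' (measure_mono fun x hx => h1 x (hKT hx))
    (measure_mono fun x hx => h1 x (hLT hx))

/-- the first block and the rest -/
def sumSig {p : ℕ} (s : Fin (p + 1) → ℕ) :
    Fin (s 0) ⊕ (Σ i : Fin p, Fin (s i.succ)) ≃ (Σ i : Fin (p + 1), Fin (s i)) where
  toFun := Sum.elim (fun j => ⟨0, j⟩) (fun q => ⟨q.1.succ, q.2⟩)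
  invFun q := Fin.cases (motive := fun i => Fin (s i) → Fin (s 0) ⊕ (Σ i : Fin p, Fin (s i.succ)))
    (fun j => Sum.inl j) (fun i j => Sum.inr ⟨i, j⟩) q.1 q.2
  left_inv := by
    rintro (j | ⟨i, j⟩) <;> rfl
  right_inv := by
    rintro ⟨i, j⟩
    cases i using Fin.cases with
    | zero => rfl
    | succ i => rfl

/-- the product of bodies -/
def prodSet {p : ℕ} {s : Fin p → ℕ} (T : ∀ i, Set (Fin (s i) → ℝ)) :
    Set ((Σ i, Fin (s i)) → ℝ) := {z | ∀ i, (fun j => z ⟨i, j⟩) ∈ T i}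

theorem prodSet_convex {p : ℕ} {s : Fin p → ℕ} {T : ∀ i, Set (Fin (s i) → ℝ)}
    (hT : ∀ i, Convex ℝ (T i)) : Convex ℝ (prodSet T) := by
  intro x hx y hy a b ha hb hab i
  exact hT i (hx i) (hy i) ha hb hab

theorem prodSet_compact {p : ℕ} {s : Fin p → ℕ} {T : ∀ i, Set (Fin (s i) → ℝ)}
    (hT : ∀ i, IsCompact (T i)) : IsCompact (prodSet T) := by
  have h := isCompact_univ_pi hT
  have hc : Continuous (fun (w : ∀ i, Fin (s i) → ℝ) (q : Σ i, Fin (s i)) => w q.1 q.2) := by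
    fun_prop
  have := h.image hc
  convert this using 1
  ext z
  constructor
  · intro hz
    exact ⟨fun i j => z ⟨i, j⟩, fun i _ => hz i, rfl⟩
  · rintro ⟨w, hw, rfl⟩ i
    exact hw i (mem_univ i)

theorem prodSet_symm {p : ℕ} {s : Fin p → ℕ} {T : ∀ i, Set (Fin (s i) → ℝ)}
    (hT : ∀ i, ∀ x ∈ T i, -x ∈ T i) : ∀ x ∈ prodSet T, -x ∈ prodSet T := by
  intro x hx i
  exact hT i _ (hx i)

/-- T5: finite products -/
theorem GG_sigma {p : ℕ} (s : Fin p → ℕ) (T : ∀ i, Set (Fin (s i) → ℝ))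
    (hT : ∀ i, Convex ℝ (T i)) (hTc : ∀ i, IsCompact (T i)) (hTs : ∀ i, ∀ x ∈ T i, -x ∈ T i)
    (hG : ∀ i, GG (T i)) :
    GG {z : (Σ i, Fin (s i)) → ℝ | ∀ i, (fun j => z ⟨i, j⟩) ∈ T i} := by
  induction p with
  | zero => exact GG_emp _
  | succ p ih =>
    have h1 : GG (prodSet fun i => T i.succ) := ih (fun i => s i.succ) (fun i => T i.succ)
      (fun i => hT i.succ) (fun i => hTc i.succ) (fun i => hTs i.succ) (fun i => hG i.succ)
    have h2 := GG_equiv (sumSig s) (GG_sum (hT 0) (hTc 0) (hTs 0)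
      (prodSet_convex fun i => hT i.succ) (prodSet_compact fun i => hTc i.succ)
      (prodSet_symm fun i => hTs i.succ) (hG 0) h1)
    convert h2 using 2
    ext z
    exact Fin.forall_fin_succ

/-- T5: the statement in Euclidean space -/
theorem final (p : ℕ) (s : Fin p → ℕ)
    (K : Set (EuclideanSpace ℝ (Σ i, Fin (s i)))) (T : ∀ i, Set (EuclideanSpace ℝ (Fin (s i))))
    (hK : Convex ℝ K) (hKc : IsCompact K) (hKi : (interior K).Nonempty) (hKs : ∀ x ∈ K, -x ∈ K)
    (hT : ∀ i, Convex ℝ (T i)) (hTc : ∀ i, IsCompact (T i)) (hTi : ∀ i, (interior (T i)).Nonempty)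
    (hTs : ∀ i, ∀ x ∈ T i, -x ∈ T i)
    (hG : ∀ i, GG {z : Fin (s i) → ℝ | WithLp.toLp 2 z ∈ T i}) :
    volume (K ∩ {x | ∀ i, WithLp.toLp 2 (fun j => x ⟨i, j⟩) ∈ T i}) *
        volume ({y : EuclideanSpace ℝ (Σ i, Fin (s i)) | ∀ x ∈ K, inner ℝ x y ≤ (1 : ℝ)} ∩
          {x | ∀ i, WithLp.toLp 2 (fun j => x ⟨i, j⟩) ∈ T i})
      ≤ volume (Metric.closedBall (0 : EuclideanSpace ℝ (Σ i, Fin (s i))) 1 ∩
          {x | ∀ i, WithLp.toLp 2 (fun j => x ⟨i, j⟩) ∈ T i}) ^ 2 := by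
  -- coordinates
  let T' : ∀ i, Set (Fin (s i) → ℝ) := fun i => {z | WithLp.toLp 2 z ∈ T i}
  have hT' : ∀ i, Convex ℝ (T' i) := by
    intro i x hx y hy a b ha hb hab
    exact hT i hx hy ha hb hab
  have hTc' : ∀ i, IsCompact (T' i) := by
    intro i
    have := (hTc i).image (PiLp.continuous_ofLp 2 (fun _ : Fin (s i) => ℝ))
    convert this using 1
    ext z
    constructor
    · intro hz
      exact ⟨WithLp.toLp 2 z, hz, rfl⟩
    · rintro ⟨w, hw, rfl⟩
      exact hw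
  have hTs' : ∀ i, ∀ x ∈ T' i, -x ∈ T' i := fun i x hx => hTs i _ hx
  have hG' : GG (prodSet T') := GG_sigma s T' hT' hTc' hTs' hG
  have hPc : IsCompact (prodSet T') := prodSet_compact hTc'
  have hPs := prodSet_symm hTs'
  set B : Set (EuclideanSpace ℝ (Σ i, Fin (s i))) :=
    {x | ∀ i, WithLp.toLp 2 (fun j => x ⟨i, j⟩) ∈ T i} with hB
  set P : Set (EuclideanSpace ℝ (Σ i, Fin (s i))) :=
    {y | ∀ x ∈ K, inner ℝ x y ≤ (1 : ℝ)} with hP
  have mp := PiLp.volume_preserving_toLp (Σ i, Fin (s i))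
  have hcont : Continuous (WithLp.toLp 2 : ((Σ i, Fin (s i)) → ℝ) → _) :=
    PiLp.continuous_toLp 2 (fun _ : (Σ i, Fin (s i)) => ℝ)
  have hcont' : Continuous (WithLp.ofLp : EuclideanSpace ℝ (Σ i, Fin (s i)) → _) :=
    PiLp.continuous_ofLp 2 (fun _ : (Σ i, Fin (s i)) => ℝ)
  have hBcl : IsClosed B := by
    have : B = WithLp.ofLp ⁻¹' (prodSet T') := rfl
    rw [this]
    exact hPc.isClosed.preimage hcont'
  have hPcl : IsClosed P := by
    have : P = ⋂ x ∈ K, {y | inner ℝ x y ≤ (1 : ℝ)} := by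
      ext y
      simp [hP]
    rw [this]
    refine isClosed_biInter fun x _ => isClosed_le (by fun_prop) continuous_const
  rw [← mp.measure_preimage (hKc.isClosed.inter hBcl).measurableSet.nullMeasurableSet,
    ← mp.measure_preimage (hPcl.inter hBcl).measurableSet.nullMeasurableSet,
    ← mp.measure_preimage (Metric.isClosed_closedBall.inter hBcl).measurableSet.nullMeasurableSet]
  have hdot : ∀ x y : (Σ i, Fin (s i)) → ℝ,
      inner ℝ (WithLp.toLp 2 x) (WithLp.toLp 2 y) = x ⬝ᵥ y := by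
    intro x y
    rw [EuclideanSpace.inner_toLp_toLp]
    simp [dotProduct_comm]
  have main : ∀ c : ℝ, 1 < c → volume (WithLp.toLp 2 ⁻¹' (K ∩ B)) *
      volume (WithLp.toLp 2 ⁻¹' (P ∩ B)) ≤ volume {x | x ∈ prodSet T' ∧ x ⬝ᵥ x < c} ^ 2 := by
    intro c hc
    apply hG' c
    · exact ((hKc.isClosed.inter hBcl).preimage hcont).measurableSet
    · exact ((hPcl.inter hBcl).preimage hcont).measurableSet
    · intro x hx
      exact ⟨hKs _ hx.1, hPs _ hx.2⟩
    · intro x hx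
      refine ⟨?_, hPs _ hx.2⟩
      intro k hk
      have := hx.1 (-k) (hKs k hk)
      rw [inner_neg_left] at this
      change inner ℝ k (-(WithLp.toLp 2 x)) ≤ (1 : ℝ)
      rw [inner_neg_right]
      exact this
    · intro x hx
      exact hx.2
    · intro x hx
      exact hx.2
    · intro x hx y hy
      have := hy.1 _ hx.1
      rw [hdot] at this
      linarith
  have hlim : Tendsto (fun n : ℕ => volume {x | x ∈ prodSet T' ∧ x ⬝ᵥ x < 1 + 1 / ((n : ℝ) + 1)})
      atTop (𝓝 (volume (WithLp.toLp 2 ⁻¹' (Metric.closedBall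
        (0 : EuclideanSpace ℝ (Σ i, Fin (s i))) 1 ∩ B)))) := by
    have hS : (WithLp.toLp 2 ⁻¹' (Metric.closedBall
        (0 : EuclideanSpace ℝ (Σ i, Fin (s i))) 1 ∩ B)) =
        ⋂ n : ℕ, {x | x ∈ prodSet T' ∧ x ⬝ᵥ x < 1 + 1 / ((n : ℝ) + 1)} := by
      ext x
      rw [mem_iInter]
      have hn : x ⬝ᵥ x = ‖(WithLp.toLp 2 x : EuclideanSpace ℝ (Σ i, Fin (s i)))‖ ^ 2 := by
        rw [← hdot, real_inner_self_eq_norm_sq]
      constructor
      · rintro ⟨h1, h2⟩ n
        refine ⟨h2, ?_⟩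
        have h3 : ‖(WithLp.toLp 2 x : EuclideanSpace ℝ (Σ i, Fin (s i)))‖ ≤ 1 := by
          simpa using h1
        have h4 : 0 < 1 / ((n : ℝ) + 1) := by positivity
        rw [hn]
        nlinarith [norm_nonneg (WithLp.toLp 2 x : EuclideanSpace ℝ (Σ i, Fin (s i)))]
      · intro h
        refine ⟨?_, (h 0).1⟩
        have h5 : x ⬝ᵥ x ≤ 1 := by
          have ht : Tendsto (fun n : ℕ => 1 + 1 / ((n : ℝ) + 1)) atTop (𝓝 (1 + 0)) :=
            tendsto_const_nhds.add tendsto_one_div_add_atTop_nhds_zero_nat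
          rw [add_zero] at ht
          exact ge_of_tendsto' ht fun n => (h n).2.le
        rw [hn] at h5
        have h6 : ‖(WithLp.toLp 2 x : EuclideanSpace ℝ (Σ i, Fin (s i)))‖ ≤ 1 := by
          nlinarith [norm_nonneg (WithLp.toLp 2 x : EuclideanSpace ℝ (Σ i, Fin (s i)))]
        simpa using h6
    rw [hS]
    apply tendsto_measure_iInter_atTop
    · intro n
      apply MeasurableSet.nullMeasurableSet
      exact hPc.measurableSet.inter
        (isOpen_lt (Continuous.dotProduct continuous_id continuous_id)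
          continuous_const).measurableSet
    · intro m n hmn x hx
      refine ⟨hx.1, hx.2.trans_le ?_⟩
      have : 1 / ((n : ℝ) + 1) ≤ 1 / ((m : ℝ) + 1) := by
        apply one_div_le_one_div_of_le (by positivity)
        have : (m : ℝ) ≤ n := by exact_mod_cast hmn
        linarith
      linarith
    · exact ⟨0, ((measure_mono fun x hx => hx.1).trans_lt hPc.measure_lt_top).ne⟩
  refine ge_of_tendsto' (ENNReal.Tendsto.pow hlim) fun n => ?_
  apply main
  have : 0 < 1 / ((n : ℝ) + 1) := by positivity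
  linarith

end Pool.Agent.H82.Ten
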