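import Pool.Agent.H82.Ten.TenUnc
import Pool.Agent.H82.Ten.TenFin

/-!
# Products of bodies: dimensions 0 and 1
-/

open MeasureTheory Set

namespace Pool.Agent.H82.Ten

variable {ι : Type*} [Fintype ι]

/-- T4: intervals -/
theorem GG_one {T : Set (Fin 1 → ℝ)} (hT : Convex ℝ T) (hTc : IsCompact T)
    (hTs : ∀ x ∈ T, -x ∈ T) : GG T := by
  apply GG_unc hT hTc
  intro x hx ε hε
  rcases hε 0 with h | h
  · convert hx using 1
    ext i
    rw [Subsingleton.elim i 0, h, one_mul]
  · convert hTs x hx using 1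
    ext i
    rw [Subsingleton.elim i 0, h, Pi.neg_apply, neg_one_mul]

/-- T4: the point -/
theorem GG_zero [IsEmpty ι] (T : Set (ι → ℝ)) : GG T := GG_emp T

end Pool.Agent.H82.Ten
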