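import Pool.Agent.H82.Ten.TenGGa

/-!
# Planar bodies: from the inequality in the complex plane to all scales
-/

open MeasureTheory Set

namespace Pool.Agent.H82.Ten

/-- The scaled real coordinates of a complex number. -/
def pullC (r : ℝ) (z : ℂ) : Fin 2 → ℝ := ![r * z.re, r * z.im]

/-- The inverse of `pullC r`. -/
noncomputable def pushC (r : ℝ) (w : Fin 2 → ℝ) : ℂ := ⟨w 0 / r, w 1 / r⟩

theorem continuous_pushC (r : ℝ) : Continuous (pushC r) := by
  have h : pushC r = fun w : Fin 2 → ℝ => ((w 0 / r : ℝ) : ℂ) + ((w 1 / r : ℝ) : ℂ) * Complex.I := by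
    funext w
    apply Complex.ext <;> simp [pushC]
  rw [h]
  fun_prop

theorem pull_push {r : ℝ} (hr : 0 < r) (w : Fin 2 → ℝ) : pullC r (pushC r w) = w := by
  funext i
  fin_cases i
  · simp [pullC, pushC]
    field_simp
  · simp [pullC, pushC]
    field_simp

theorem push_pull {r : ℝ} (hr : 0 < r) (z : ℂ) : pushC r (pullC r z) = z := by
  apply Complex.ext
  · simp [pullC, pushC]
    field_simp
  · simp [pullC, pushC]
    field_simp

theorem preimage_eq {r : ℝ} (hr : 0 < r) (A : Set (Fin 2 → ℝ)) :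
    pullC r ⁻¹' A = pushC r '' A := by
  ext z
  constructor
  · intro hz
    exact ⟨pullC r z, hz, push_pull hr z⟩
  · rintro ⟨w, hw, rfl⟩
    simpa [pull_push hr] using hw

theorem vol_pre {r : ℝ} (hr : 0 < r) {A : Set (Fin 2 → ℝ)} (hA : MeasurableSet A) :
    volume.real (pullC r ⁻¹' A) = (r ^ 2)⁻¹ * volume.real A := by
  have h : pullC r = (fun w : Fin 2 → ℝ => r • w) ∘ Complex.measurableEquivPi := by
    funext z i
    fin_cases i <;> simp [pullC, Complex.measurableEquivPi]
  have hs : MeasurableSet ((fun w : Fin 2 → ℝ => r • w) ⁻¹' A) :=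
    (measurable_const_smul r) hA
  rw [h, preimage_comp, Measure.real,
    Complex.volume_preserving_equiv_pi.measure_preimage hs.nullMeasurableSet,
    Measure.addHaar_preimage_smul volume hr.ne']
  simp only [Module.finrank_fintype_fun_eq_card, Fintype.card_fin, ENNReal.toReal_mul]
  rw [ENNReal.toReal_ofReal (abs_nonneg _), abs_of_pos (by positivity)]
  rfl

/-- T4: planar bodies -/
theorem GG_two (hP : ∀ (K L T : Set ℂ), IsCompact K → IsCompact L → K ⊆ T → L ⊆ T →
      (∀ x ∈ K, ∀ y ∈ L, |x.re * y.re + x.im * y.im| ≤ 1) → Convex ℝ T → IsCompact T →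
      (0 : ℂ) ∈ T → (∀ x ∈ T, -x ∈ T) →
      √(volume.real K * volume.real L) ≤ volume.real (Metric.closedBall (0 : ℂ) 1 ∩ T))
    {T : Set (Fin 2 → ℝ)} (hT : Convex ℝ T) (hTc : IsCompact T) (hTs : ∀ x ∈ T, -x ∈ T) :
    GG T := by
  refine GG_of_compact fun c K L hK hL hKs hLs hKT hLT hKL => ?_
  rcases K.eq_empty_or_nonempty with rfl | hKn
  · simp
  rcases L.eq_empty_or_nonempty with rfl | hLn
  · simp
  have hcont : Continuous fun p : (Fin 2 → ℝ) × (Fin 2 → ℝ) => p.1 ⬝ᵥ p.2 := by
    simp only [dotProduct]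
    fun_prop
  obtain ⟨p, hp, hpm⟩ := (hK.prod hL).exists_isMaxOn (hKn.prod hLn) hcont.continuousOn
  have hc1 : p.1 ⬝ᵥ p.2 < c := hKL _ hp.1 _ hp.2
  have hc0 : 0 ≤ p.1 ⬝ᵥ p.2 := by
    have h1 : (-p.1, p.2) ∈ K ×ˢ L := ⟨hKs _ hp.1, hp.2⟩
    have h2 := hpm h1
    simp only [neg_dotProduct, mem_ofPred_eq] at h2
    linarith
  obtain ⟨c2, hc12, hc2c⟩ := exists_between hc1
  have hc2 : 0 < c2 := hc0.trans_lt hc12
  set r : ℝ := √c2 with hrdef
  have hr : 0 < r := Real.sqrt_pos.2 hc2
  have hr2 : r ^ 2 = c2 := Real.sq_sqrt hc2.le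
  have hdot : ∀ x y : ℂ, pullC r x ⬝ᵥ pullC r y = c2 * (x.re * y.re + x.im * y.im) := by
    intro x y
    simp only [dotProduct, Fin.sum_univ_two, pullC, Matrix.cons_val_zero, Matrix.cons_val_one]
    rw [← hr2]
    ring
  have hT0 : (0 : Fin 2 → ℝ) ∈ T := by
    obtain ⟨x, hx⟩ := hKn
    have h1 := hKT hx
    have h2 := hT h1 (hTs _ h1) (by norm_num : (0 : ℝ) ≤ 1 / 2) (by norm_num : (0 : ℝ) ≤ 1 / 2)
      (by norm_num)
    simpa using h2
  have hle : ∀ x ∈ K, ∀ y ∈ L, x ⬝ᵥ y ≤ c2 := by
    intro x hx y hy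
    have h1 : (x, y) ∈ K ×ˢ L := ⟨hx, hy⟩
    have h2 := hpm h1
    simp only [mem_ofPred_eq] at h2
    exact h2.trans hc12.le
  have key := hP (pullC r ⁻¹' K) (pullC r ⁻¹' L) (pullC r ⁻¹' T)
    (by rw [preimage_eq hr]; exact hK.image (continuous_pushC r))
    (by rw [preimage_eq hr]; exact hL.image (continuous_pushC r))
    (preimage_mono hKT) (preimage_mono hLT)
    (by
      intro x hx y hy
      have h1 := hle _ hx _ hy
      have h2 := hle _ (hKs _ hx) _ hy
      rw [neg_dotProduct] at h2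
      rw [hdot] at h1 h2
      rw [abs_le]
      constructor
      · by_contra hcon
        push Not at hcon
        nlinarith
      · by_contra hcon
        push Not at hcon
        nlinarith)
    (by
      intro x hx y hy a b ha hb hab
      have h1 := hT hx hy ha hb hab
      have h2 : pullC r (a • x + b • y) = a • pullC r x + b • pullC r y := by
        funext i
        fin_cases i <;> simp [pullC] <;> ring
      rw [mem_preimage, h2]
      exact h1)
    (by rw [preimage_eq hr]; exact hTc.image (continuous_pushC r))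
    (by
      have h2 : pullC r 0 = 0 := by
        funext i
        fin_cases i <;> simp [pullC]
      simpa [mem_preimage, h2] using hT0)
    (by
      intro x hx
      have h1 := hTs _ hx
      have h2 : pullC r (-x) = - pullC r x := by
        funext i
        fin_cases i <;> simp [pullC]
      simpa [mem_preimage, h2] using h1)
  set S : Set (Fin 2 → ℝ) := {x | x ∈ T ∧ x ⬝ᵥ x < c} with hS
  have hSm : MeasurableSet S := by
    have hc : Continuous fun x : Fin 2 → ℝ => x ⬝ᵥ x := by
      simp only [dotProduct]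
      fun_prop
    exact hTc.measurableSet.inter (measurableSet_lt hc.measurable measurable_const)
  have hSfin : volume S ≠ ⊤ := by
    have h1 : S ⊆ T := fun x hx => hx.1
    exact ((measure_mono h1).trans_lt hTc.measure_lt_top).ne
  have hSpre : volume (pullC r ⁻¹' S) ≠ ⊤ := by
    have h1 : pullC r ⁻¹' S ⊆ pushC r '' T := by
      rw [← preimage_eq hr]
      exact preimage_mono fun x hx => hx.1
    exact ((measure_mono h1).trans_lt
      (hTc.image (continuous_pushC r)).measure_lt_top).ne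
  have hsub : Metric.closedBall (0 : ℂ) 1 ∩ pullC r ⁻¹' T ⊆ pullC r ⁻¹' S := by
    rintro z ⟨hz1, hz2⟩
    refine ⟨hz2, ?_⟩
    rw [hdot]
    have h1 : ‖z‖ ≤ 1 := by simpa using hz1
    have h2 : z.re * z.re + z.im * z.im = ‖z‖ ^ 2 := by
      rw [← Complex.normSq_eq_norm_sq, Complex.normSq_apply]
    rw [h2]
    have h3 : ‖z‖ ^ 2 ≤ 1 := by
      have := norm_nonneg z
      nlinarith
    nlinarith
  have hfin : volume.real (Metric.closedBall (0 : ℂ) 1 ∩ pullC r ⁻¹' T) ≤
      (r ^ 2)⁻¹ * volume.real S := by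
    rw [← vol_pre hr hSm]
    exact measureReal_mono hsub hSpre
  rw [vol_pre hr hK.measurableSet, vol_pre hr hL.measurableSet] at key
  have h1 : √((r ^ 2)⁻¹ * volume.real K * ((r ^ 2)⁻¹ * volume.real L)) =
      (r ^ 2)⁻¹ * √(volume.real K * volume.real L) := by
    rw [show (r ^ 2)⁻¹ * volume.real K * ((r ^ 2)⁻¹ * volume.real L) =
      ((r ^ 2)⁻¹) ^ 2 * (volume.real K * volume.real L) by ring,
      Real.sqrt_mul (by positivity), Real.sqrt_sq (by positivity)]
  rw [h1] at key
  have h2 : √(volume.real K * volume.real L) ≤ volume.real S :=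
    le_of_mul_le_mul_left (key.trans hfin) (by positivity)
  have h3 : volume.real K * volume.real L ≤ volume.real S ^ 2 := by
    rw [← Real.sqrt_le_left (by positivity)]
    exact h2
  have hKf : volume K ≠ ⊤ := hK.measure_lt_top.ne
  have hLf : volume L ≠ ⊤ := hL.measure_lt_top.ne
  have h4 : (volume K * volume L).toReal ≤ (volume S ^ 2).toReal := by
    rw [ENNReal.toReal_mul, ENNReal.toReal_pow]
    exact h3
  exact (ENNReal.toReal_le_toReal (ENNReal.mul_ne_top hKf hLf) (ENNReal.pow_ne_top hSfin)).1 h4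

end Pool.Agent.H82.Ten
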