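import Pool.Agent.H82.Ten.TenFin
import Pool.Agent.H82.Ten.TenSmall1
import Pool.Agent.H82.Ten.TenSmall2
import Pool.Agent.H82.Ten.TenUnc
import Pool.Agent.H82.Cor.Step

/-!
# Orthogonal products of planar and unconditional bodies
-/

open MeasureTheory Set

namespace Pool.Agent.H82.Ten

/-- the planar theorem in the form used for products -/
theorem plane_C (K L T : Set ℂ) (hK : IsCompact K) (hL : IsCompact L) (hKT : K ⊆ T) (hLT : L ⊆ T)
    (h : ∀ x ∈ K, ∀ y ∈ L, |x.re * y.re + x.im * y.im| ≤ 1) (hT : Convex ℝ T)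
    (hTc : IsCompact T) (h0 : (0 : ℂ) ∈ T) (hTs : ∀ x ∈ T, -x ∈ T) :
    √(volume.real K * volume.real L) ≤ volume.real (Metric.closedBall (0 : ℂ) 1 ∩ T) := by
  have := Cor.planC (fun R hR N => Cor.pn_all hR N) K L T hK hL hKT hLT h hT hTc h0 hTs
  rwa [Cor.Bu_eq] at this

/-- bodies in small dimensions -/
theorem GG_small (m : ℕ) (hm : m ≤ 2) (S : Set (EuclideanSpace ℝ (Fin m))) (hS : Convex ℝ S)
    (hSc : IsCompact S) (hSs : ∀ x ∈ S, -x ∈ S) : GG {z : Fin m → ℝ | WithLp.toLp 2 z ∈ S} := by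
  have h1 : Convex ℝ {z : Fin m → ℝ | WithLp.toLp 2 z ∈ S} := by
    have : {z : Fin m → ℝ | WithLp.toLp 2 z ∈ S} =
        (WithLp.linearEquiv 2 ℝ (Fin m → ℝ)).symm.toLinearMap ⁻¹' S := rfl
    rw [this]
    exact hS.linear_preimage _
  have h2 : IsCompact {z : Fin m → ℝ | WithLp.toLp 2 z ∈ S} := by
    have : {z : Fin m → ℝ | WithLp.toLp 2 z ∈ S} =
        (PiLp.homeomorph 2 (fun _ : Fin m => ℝ)).symm ⁻¹' S := rfl
    rw [this]
    exact (PiLp.homeomorph 2 (fun _ : Fin m => ℝ)).symm.isCompact_preimage.2 hSc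
  have h3 : ∀ x ∈ {z : Fin m → ℝ | WithLp.toLp 2 z ∈ S},
      -x ∈ {z : Fin m → ℝ | WithLp.toLp 2 z ∈ S} := by
    intro x hx
    have := hSs _ hx
    rwa [← WithLp.toLp_neg] at this
  interval_cases m
  · exact GG_zero _
  · exact GG_one h1 h2 h3
  · exact GG_two plane_C h1 h2 h3

/-- the block projections -/
noncomputable def blk {p : ℕ} (s : Fin p → ℕ) (i : Fin p) :
    EuclideanSpace ℝ (Σ i, Fin (s i)) →ₗ[ℝ] EuclideanSpace ℝ (Fin (s i)) where
  toFun x := WithLp.toLp 2 (fun j => x ⟨i, j⟩)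
  map_add' x y := by
    ext j
    simp
  map_smul' r x := by
    ext j
    simp

lemma blk_apply {p : ℕ} (s : Fin p → ℕ) (i : Fin p) (x : EuclideanSpace ℝ (Σ i, Fin (s i))) :
    blk s i x = WithLp.toLp 2 (fun j => x ⟨i, j⟩) := rfl

lemma blk_surj {p : ℕ} (s : Fin p → ℕ) (i : Fin p) : Function.Surjective (blk s i) := by
  classical
  intro z
  refine ⟨WithLp.toLp 2 (fun q : (Σ i, Fin (s i)) => if h : q.1 = i then z (h ▸ q.2) else 0), ?_⟩
  ext j
  simp [blk_apply]

theorem hand_in (n : ℕ) (K T : Set (EuclideanSpace ℝ (Fin n)))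
    (hK : Convex ℝ K) (hKc : IsCompact K) (hKi : (interior K).Nonempty) (hKs : ∀ x ∈ K, -x ∈ K)
    (hT : Convex ℝ T) (hTc : IsCompact T) (hTi : (interior T).Nonempty) (hTs : ∀ x ∈ T, -x ∈ T)
    (h : ∃ (p : ℕ) (s : Fin p → ℕ)
        (e : EuclideanSpace ℝ (Fin n) ≃ₗᵢ[ℝ] EuclideanSpace ℝ (Σ i, Fin (s i)))
        (S : ∀ i, Set (EuclideanSpace ℝ (Fin (s i)))),
        (∀ x, x ∈ T ↔ ∀ i, WithLp.toLp 2 (fun j => e x ⟨i, j⟩) ∈ S i) ∧
        ∀ i, s i ≤ 2 ∨ ∀ z ∈ S i, ∀ ε : Fin (s i) → ℝ, (∀ j, ε j = 1 ∨ ε j = -1) →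
          WithLp.toLp 2 (fun j => ε j * z j) ∈ S i) :
    volume (K ∩ T) * volume ({y : EuclideanSpace ℝ (Fin n) | ∀ x ∈ K, inner ℝ x y ≤ (1 : ℝ)} ∩ T)
      ≤ volume (Metric.closedBall (0 : EuclideanSpace ℝ (Fin n)) 1 ∩ T) ^ 2 := by
  classical
  obtain ⟨p, s, e, S, hTS, hS⟩ := h
  set S' : ∀ i, Set (EuclideanSpace ℝ (Fin (s i))) := fun i => (fun x => blk s i (e x)) '' T with hS'
  have hTS' : ∀ x, x ∈ T ↔ ∀ i, WithLp.toLp 2 (fun j => e x ⟨i, j⟩) ∈ S' i := by
    intro x
    constructor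
    · intro hx i
      exact ⟨x, hx, rfl⟩
    · intro hx
      rw [hTS]
      intro i
      obtain ⟨t, ht, hti⟩ := hx i
      rw [← hti]
      exact (hTS t).1 ht i
  have hlin : ∀ i, S' i = ((blk s i).comp e.toLinearEquiv.toLinearMap) '' T := fun i => rfl
  have hcont : ∀ i, Continuous (fun x => blk s i (e x)) := fun i =>
    (blk s i).continuous_of_finiteDimensional.comp e.continuous
  have hconv : ∀ i, Convex ℝ (S' i) := fun i => by
    rw [hlin]
    exact hT.linear_image _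
  have hcomp : ∀ i, IsCompact (S' i) := fun i => hTc.image (hcont i)
  have hint : ∀ i, (interior (S' i)).Nonempty := by
    intro i
    obtain ⟨x, hx⟩ := hTi
    have hopen : IsOpenMap (fun x => blk s i (e x)) :=
      ((blk s i).isOpenMap_of_finiteDimensional (blk_surj s i)).comp e.toHomeomorph.isOpenMap
    have h1 : IsOpen ((fun x => blk s i (e x)) '' interior T) := hopen _ isOpen_interior
    exact ⟨blk s i (e x), interior_maximal (image_mono interior_subset) h1 ⟨x, hx, rfl⟩⟩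
  have hsym : ∀ i, ∀ z ∈ S' i, -z ∈ S' i := by
    rintro i _ ⟨x, hx, rfl⟩
    exact ⟨-x, hTs x hx, by simp⟩
  have hG : ∀ i, GG {z : Fin (s i) → ℝ | WithLp.toLp 2 z ∈ S' i} := by
    intro i
    rcases hS i with h2 | hu
    · exact GG_small (s i) h2 (S' i) (hconv i) (hcomp i) (hsym i)
    · refine GG_unc ?_ ?_ ?_
      · have : {z : Fin (s i) → ℝ | WithLp.toLp 2 z ∈ S' i} =
            (WithLp.linearEquiv 2 ℝ (Fin (s i) → ℝ)).symm.toLinearMap ⁻¹' S' i := rfl
        rw [this]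
        exact (hconv i).linear_preimage _
      · have : {z : Fin (s i) → ℝ | WithLp.toLp 2 z ∈ S' i} =
            (PiLp.homeomorph 2 (fun _ : Fin (s i) => ℝ)).symm ⁻¹' S' i := rfl
        rw [this]
        exact (PiLp.homeomorph 2 (fun _ : Fin (s i) => ℝ)).symm.isCompact_preimage.2 (hcomp i)
      · intro z hz ε hε
        obtain ⟨x, hx, hxz⟩ := hz
        have h1 : WithLp.toLp 2 z ∈ S i := by
          rw [← hxz]
          exact (hTS x).1 hx i
        have h2 : WithLp.toLp 2 (fun j => ε j * z j) ∈ S i := hu _ h1 ε hε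
        set v : EuclideanSpace ℝ (Σ i, Fin (s i)) := WithLp.toLp 2
          (fun q : (Σ i, Fin (s i)) => if h : q.1 = i then ε (h ▸ q.2) * z (h ▸ q.2) else e x q)
          with hv
        refine ⟨e.symm v, ?_, ?_⟩
        · rw [hTS]
          intro k
          rw [e.apply_symm_apply]
          by_cases hk : k = i
          · subst hk
            have : (fun j => v ⟨k, j⟩) = (fun j => ε j * z j) := by
              funext j
              simp [hv]
            rw [this]
            exact h2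
          · have : (fun j => v ⟨k, j⟩) = (fun j => e x ⟨k, j⟩) := by
              funext j
              simp [hv, hk]
            rw [this]
            exact (hTS x).1 hx k
        · simp only [e.apply_symm_apply, blk_apply]
          congr 1
          funext j
          simp [hv]
  have key := final p s (e '' K) S' (hK.linear_image e.toLinearEquiv.toLinearMap)
    (hKc.image e.continuous) (by
      obtain ⟨x, hx⟩ := hKi
      have h1 : IsOpen (e '' interior K) := e.toHomeomorph.isOpenMap _ isOpen_interior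
      exact ⟨e x, interior_maximal (image_mono interior_subset) h1 ⟨x, hx, rfl⟩⟩)
    (by
      rintro _ ⟨x, hx, rfl⟩
      exact ⟨-x, hKs x hx, by simp⟩) hconv hcomp hint hsym hG
  have hvol : ∀ B : Set (EuclideanSpace ℝ (Σ i, Fin (s i))), MeasurableSet B →
      volume (e ⁻¹' B) = volume B := fun B hB =>
    e.measurePreserving.measure_preimage hB.nullMeasurableSet
  set P : Set (EuclideanSpace ℝ (Σ i, Fin (s i))) :=
    {x | ∀ i, WithLp.toLp 2 (fun j => x ⟨i, j⟩) ∈ S' i} with hP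
  have hPc : IsClosed P := by
    have : P = ⋂ i, (blk s i) ⁻¹' S' i := by
      ext x
      simp [hP, blk_apply]
    rw [this]
    exact isClosed_iInter fun i => (hcomp i).isClosed.preimage
      (blk s i).continuous_of_finiteDimensional
  have hTP : T = e ⁻¹' P := by
    ext x
    exact hTS' x
  have e1 : K ∩ T = e ⁻¹' (e '' K ∩ P) := by
    rw [preimage_inter, ← hTP, preimage_image_eq K e.injective]
  have e2 : {y : EuclideanSpace ℝ (Fin n) | ∀ x ∈ K, inner ℝ x y ≤ (1 : ℝ)} ∩ T =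
      e ⁻¹' ({y | ∀ x ∈ e '' K, inner ℝ x y ≤ (1 : ℝ)} ∩ P) := by
    rw [preimage_inter, ← hTP]
    congr 1
    ext y
    simp [LinearIsometryEquiv.inner_map_map]
  have e3 : Metric.closedBall (0 : EuclideanSpace ℝ (Fin n)) 1 ∩ T =
      e ⁻¹' (Metric.closedBall 0 1 ∩ P) := by
    rw [preimage_inter, ← hTP]
    congr 1
    ext y
    simp
  have m1 : MeasurableSet (e '' K ∩ P) :=
    ((hKc.image e.continuous).isClosed.inter hPc).measurableSet
  have m2 : MeasurableSet ({y | ∀ x ∈ e '' K, inner ℝ x y ≤ (1 : ℝ)} ∩ P) := by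
    refine (IsClosed.inter ?_ hPc).measurableSet
    have : {y : EuclideanSpace ℝ (Σ i, Fin (s i)) | ∀ x ∈ e '' K, inner ℝ x y ≤ (1 : ℝ)} =
        ⋂ x ∈ e '' K, {y | inner ℝ x y ≤ (1 : ℝ)} := by
      ext y
      simp
    rw [this]
    exact isClosed_biInter fun x _ => isClosed_le (by fun_prop) continuous_const
  have m3 : MeasurableSet (Metric.closedBall (0 : EuclideanSpace ℝ (Σ i, Fin (s i))) 1 ∩ P) :=
    (Metric.isClosed_closedBall.inter hPc).measurableSet
  rw [e1, e2, e3, hvol _ m1, hvol _ m2, hvol _ m3]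
  exact key

end Pool.Agent.H82.Ten
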