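import Pool.Agent.H82.Ten.Basic
import Pool.Agent.H12.San.PL1

/-!
# The functional step for block symmetric pairs
-/

open MeasureTheory Set
open scoped ENNReal

namespace Pool.Agent.H82.Ten

variable {ι κ : Type*} [Fintype ι] [Fintype κ]

/-- The distribution function of the norm on the body `T`. -/
noncomputable def rhoT (T : Set (ι → ℝ)) (c t : ℝ) : ℝ≥0∞ :=
  volume {x : ι → ℝ | x ∈ T ∧ x ⬝ᵥ x < c - t}

lemma continuous_dot_self : Continuous (fun x : ι → ℝ => x ⬝ᵥ x) := by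
  unfold dotProduct
  fun_prop

lemma rhoT_anti (T : Set (ι → ℝ)) (c : ℝ) : Antitone (rhoT T c) := by
  intro s t hst
  apply measure_mono
  rintro x ⟨h1, h2⟩
  exact ⟨h1, by linarith⟩

lemma dot_self_nonneg (x : ι → ℝ) : 0 ≤ x ⬝ᵥ x := by
  unfold dotProduct
  exact Finset.sum_nonneg fun i _ => mul_self_nonneg _

lemma rhoT_zero (T : Set (ι → ℝ)) {c t : ℝ} (h : c ≤ t) : rhoT T c t = 0 := by
  unfold rhoT
  have : {x : ι → ℝ | x ∈ T ∧ x ⬝ᵥ x < c - t} = ∅ := by
    ext x
    simp only [mem_ofPred_eq, mem_empty_iff_false, iff_false, not_and, not_lt]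
    intro _
    linarith [dot_self_nonneg x]
  rw [this, measure_empty]

lemma rhoT_right (T : Set (ι → ℝ)) (c t : ℝ) {r : ℝ≥0∞} (h : r < rhoT T c t) :
    ∃ t', t < t' ∧ r < rhoT T c t' := by
  have hU : {x : ι → ℝ | x ∈ T ∧ x ⬝ᵥ x < c - t} =
      ⋃ n : ℕ, {x : ι → ℝ | x ∈ T ∧ x ⬝ᵥ x < c - (t + 1 / ((n : ℝ) + 1))} := by
    ext x
    simp only [mem_ofPred_eq, mem_iUnion]
    constructor
    · rintro ⟨h1, h2⟩
      obtain ⟨n, hn⟩ := exists_nat_one_div_lt (sub_pos.2 h2)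
      exact ⟨n, h1, by linarith⟩
    · rintro ⟨n, h1, h2⟩
      have : (0 : ℝ) < 1 / ((n : ℝ) + 1) := by positivity
      exact ⟨h1, by linarith⟩
  have hmono : Monotone fun n : ℕ => {x : ι → ℝ | x ∈ T ∧ x ⬝ᵥ x < c - (t + 1 / ((n : ℝ) + 1))} := by
    intro m n hmn x hx
    refine ⟨hx.1, lt_of_lt_of_le hx.2 ?_⟩
    have : (1 : ℝ) / ((n : ℝ) + 1) ≤ 1 / ((m : ℝ) + 1) := by
      apply one_div_le_one_div_of_le
      · positivity
      · have : (m : ℝ) ≤ n := by exact_mod_cast hmn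
        linarith
    linarith
  have hlim := tendsto_measure_iUnion_atTop (μ := (volume : Measure (ι → ℝ))) hmono
  rw [← hU] at hlim
  have hev := (tendsto_order.1 hlim).1 r h
  obtain ⟨n, hn⟩ := hev.exists
  refine ⟨t + 1 / ((n : ℝ) + 1), ?_, hn⟩
  have : (0 : ℝ) < 1 / ((n : ℝ) + 1) := by positivity
  linarith

/-- T2, TenFun.lean: the functional step for block symmetric pairs -/
theorem block_ineq {T : Set (ι → ℝ)} {U : Set (κ → ℝ)} (hTc : IsCompact T) (hUc : IsCompact U)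
    (gT : GG T) (gU : GG U) {c : ℝ} {K L : Set ((ι → ℝ) × (κ → ℝ))}
    (hK : IsCompact K) (hL : IsCompact L) (hKs : ∀ p ∈ K, (-p.1, p.2) ∈ K ∧ (p.1, -p.2) ∈ K)
    (hLs : ∀ p ∈ L, (-p.1, p.2) ∈ L ∧ (p.1, -p.2) ∈ L)
    (hKT : K ⊆ T ×ˢ U) (hLT : L ⊆ T ×ˢ U)
    (hKL : ∀ p ∈ K, ∀ q ∈ L, p.1 ⬝ᵥ q.1 + p.2 ⬝ᵥ q.2 < c) :
    volume K * volume L ≤
      volume {p : (ι → ℝ) × (κ → ℝ) | p.1 ∈ T ∧ p.2 ∈ U ∧ p.1 ⬝ᵥ p.1 + p.2 ⬝ᵥ p.2 < c} ^ 2 := by
  have hTfin : volume T ≠ ∞ := hTc.measure_lt_top.ne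
  -- facts for one body
  have fibre : ∀ {M : Set ((ι → ℝ) × (κ → ℝ))}, IsCompact M →
      (∀ p ∈ M, (-p.1, p.2) ∈ M ∧ (p.1, -p.2) ∈ M) → M ⊆ T ×ˢ U →
      Measurable (fun u : κ → ℝ => volume ((fun x : ι → ℝ => (x, u)) ⁻¹' M)) ∧
      (∀ u, volume ((fun x : ι → ℝ => (x, u)) ⁻¹' M) ≤ volume T) ∧
      (∀ u, volume ((fun x : ι → ℝ => (x, u)) ⁻¹' M) ≠ 0 → u ∈ U) ∧
      (∀ u, volume ((fun x : ι → ℝ => (x, -u)) ⁻¹' M) = volume ((fun x : ι → ℝ => (x, u)) ⁻¹' M)) ∧
      volume M = ∫⁻ s in Ioi (0 : ℝ), volume {u : κ → ℝ | ENNReal.ofReal s <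
        volume ((fun x : ι → ℝ => (x, u)) ⁻¹' M)} := by
    intro M hM hMs hMT
    have hmeas : Measurable (fun u : κ → ℝ => volume ((fun x : ι → ℝ => (x, u)) ⁻¹' M)) :=
      measurable_measure_prodMk_right hM.measurableSet
    have hle : ∀ u, volume ((fun x : ι → ℝ => (x, u)) ⁻¹' M) ≤ volume T := fun u =>
      measure_mono fun x hx => (hMT hx).1
    have hfin : ∀ u, volume ((fun x : ι → ℝ => (x, u)) ⁻¹' M) ≠ ∞ := fun u =>
      ne_top_of_le_ne_top hTfin (hle u)
    refine ⟨hmeas, hle, ?_, ?_, ?_⟩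
    · intro u hu
      obtain ⟨x, hx⟩ := nonempty_of_measure_ne_zero hu
      exact (hMT hx).2
    · intro u
      congr 1
      ext x
      constructor
      · intro hx
        have := (hMs _ hx).2
        simpa using this
      · intro hx
        exact (hMs _ hx).2
    · have h1 : volume M = ∫⁻ u, volume ((fun x : ι → ℝ => (x, u)) ⁻¹' M) := by
        rw [Measure.volume_eq_prod, Measure.prod_apply_symm hM.measurableSet]
      have h2 : ∀ u, volume ((fun x : ι → ℝ => (x, u)) ⁻¹' M) =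
          ENNReal.ofReal (volume ((fun x : ι → ℝ => (x, u)) ⁻¹' M)).toReal := fun u =>
        (ENNReal.ofReal_toReal (hfin u)).symm
      rw [h1]
      conv_lhs => arg 2; ext u; rw [h2 u]
      rw [lintegral_eq_lintegral_meas_lt volume (Filter.Eventually.of_forall fun u =>
        ENNReal.toReal_nonneg) hmeas.ennreal_toReal.aemeasurable]
      apply setLIntegral_congr_fun measurableSet_Ioi
      intro s hs
      simp only
      congr 1
      ext u
      exact (ENNReal.ofReal_lt_iff_lt_toReal (le_of_lt hs) (hfin u)).symm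
  obtain ⟨mf, lf, uf, sf, vf⟩ := fibre hK hKs hKT
  obtain ⟨mg, lg, ug, sg, vg⟩ := fibre hL hLs hLT
  set f : (κ → ℝ) → ℝ≥0∞ := fun u => volume ((fun x : ι → ℝ => (x, u)) ⁻¹' K) with hf
  set g : (κ → ℝ) → ℝ≥0∞ := fun u => volume ((fun x : ι → ℝ => (x, u)) ⁻¹' L) with hg
  -- duality on the fibres
  have key1 : ∀ u v, f u * g v ≤ rhoT T c (u ⬝ᵥ v) ^ 2 := by
    intro u v
    refine gT (c - u ⬝ᵥ v) _ _ ?_ ?_ ?_ ?_ ?_ ?_ ?_
    · exact measurable_prodMk_right hK.measurableSet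
    · exact measurable_prodMk_right hL.measurableSet
    · intro x hx
      exact (hKs _ hx).1
    · intro x hx
      exact (hLs _ hx).1
    · intro x hx
      exact (hKT hx).1
    · intro x hx
      exact (hLT hx).1
    · intro x hx y hy
      have := hKL _ hx _ hy
      simp only at this
      linarith
  have mr : Measurable (rhoT T c) := (rhoT_anti T c).measurable
  have hrfin : ∀ t, rhoT T c t ≠ ∞ := fun t =>
    ne_top_of_le_ne_top hTfin (measure_mono fun x hx => hx.1)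
  -- the key inequality for level sets
  have key2 : ∀ s > 0, ∀ t > 0, volume {u | ENNReal.ofReal s < f u} * volume {v | ENNReal.ofReal t < g v}
      ≤ volume {w : κ → ℝ | w ∈ U ∧ ENNReal.ofReal (Real.sqrt (s * t)) < rhoT T c (w ⬝ᵥ w)} ^ 2 := by
    intro s hs t ht
    set r : ℝ≥0∞ := ENNReal.ofReal (Real.sqrt (s * t)) with hr
    have hr2 : r ^ 2 = ENNReal.ofReal s * ENNReal.ofReal t := by
      rw [hr, ← ENNReal.ofReal_pow (Real.sqrt_nonneg _), Real.sq_sqrt (by positivity),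
        ENNReal.ofReal_mul hs.le]
    have hlt : ∀ u v, ENNReal.ofReal s < f u → ENNReal.ofReal t < g v → r < rhoT T c (u ⬝ᵥ v) := by
      intro u v h1 h2
      have h3 : r ^ 2 < rhoT T c (u ⬝ᵥ v) ^ 2 := by
        rw [hr2]
        exact lt_of_lt_of_le (ENNReal.mul_lt_mul h1 h2) (key1 u v)
      by_contra hcon
      push Not at hcon
      exact absurd h3 (not_lt.2 (pow_le_pow_left' hcon 2))
    by_cases hne : ({u | ENNReal.ofReal s < f u}).Nonempty ∧ ({v | ENNReal.ofReal t < g v}).Nonempty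
    · obtain ⟨⟨u0, hu0⟩, ⟨v0, hv0⟩⟩ := hne
      set A : Set ℝ := {τ | r < rhoT T c τ} with hA
      have hAne : A.Nonempty := ⟨u0 ⬝ᵥ v0, hlt u0 v0 hu0 hv0⟩
      have hAb : BddAbove A := by
        refine ⟨c, fun τ hτ => ?_⟩
        by_contra hcon
        push Not at hcon
        have h1 : r < rhoT T c τ := hτ
        rw [rhoT_zero T hcon.le] at h1
        exact absurd h1 (not_lt.2 zero_le)
      have hAlt : ∀ τ ∈ A, τ < sSup A := by
        intro τ hτ
        obtain ⟨τ', h1, h2⟩ := rhoT_right T c τ hτ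
        exact lt_of_lt_of_le h1 (le_csSup hAb h2)
      have h1 := gU (sSup A) {u | ENNReal.ofReal s < f u} {v | ENNReal.ofReal t < g v}
        (measurableSet_lt measurable_const mf) (measurableSet_lt measurable_const mg)
        (fun u hu => by
          show ENNReal.ofReal s < f (-u)
          have : f (-u) = f u := sf u
          rw [this]; exact hu)
        (fun u hu => by
          show ENNReal.ofReal t < g (-u)
          have : g (-u) = g u := sg u
          rw [this]; exact hu)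
        (fun u hu => uf u (ne_of_gt (lt_of_le_of_lt zero_le hu)))
        (fun u hu => ug u (ne_of_gt (lt_of_le_of_lt zero_le hu)))
        (fun u hu v hv => hAlt _ (hlt u v hu hv))
      refine h1.trans (pow_le_pow_left' (measure_mono ?_) 2)
      rintro w ⟨hwU, hw⟩
      refine ⟨hwU, ?_⟩
      obtain ⟨τ, hτ, hlt'⟩ := exists_lt_of_lt_csSup hAne hw
      exact lt_of_lt_of_le hτ (rhoT_anti T c hlt'.le)
    · have h0 : volume {u | ENNReal.ofReal s < f u} * volume {v | ENNReal.ofReal t < g v} = 0 := by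
        rw [not_and_or, Set.not_nonempty_iff_eq_empty, Set.not_nonempty_iff_eq_empty] at hne
        rcases hne with h | h
        · rw [h, measure_empty, zero_mul]
        · rw [h, measure_empty, mul_zero]
      rw [h0]
      exact zero_le
  -- multiplicative Prekopa-Leindler
  have anti : ∀ F : (κ → ℝ) → ℝ≥0∞, Antitone fun s : ℝ => volume {u | ENNReal.ofReal s < F u} := by
    intro F s t hst
    apply measure_mono
    intro u hu
    exact lt_of_le_of_lt (ENNReal.ofReal_le_ofReal hst) hu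
  have antiH : Antitone fun r : ℝ => volume {w : κ → ℝ | w ∈ U ∧ ENNReal.ofReal r < rhoT T c (w ⬝ᵥ w)} := by
    intro s t hst
    apply measure_mono
    rintro u ⟨hu1, hu⟩
    exact ⟨hu1, lt_of_le_of_lt (ENNReal.ofReal_le_ofReal hst) hu⟩
  have hpl := Pool.Agent.H12.San.mulPL (anti f).measurable (anti g).measurable antiH.measurable key2
  rw [← vf, ← vg] at hpl
  refine hpl.trans (le_of_eq ?_)
  congr 1
  -- the right hand side
  have hmD : MeasurableSet {p : (ι → ℝ) × (κ → ℝ) | p.1 ∈ T ∧ p.2 ∈ U ∧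
      p.1 ⬝ᵥ p.1 + p.2 ⬝ᵥ p.2 < c} := by
    have h1 : Measurable fun p : (ι → ℝ) × (κ → ℝ) => p.1 ⬝ᵥ p.1 + p.2 ⬝ᵥ p.2 :=
      ((continuous_dot_self.comp continuous_fst).add
        (continuous_dot_self.comp continuous_snd)).measurable
    exact (measurable_fst hTc.measurableSet).inter
      ((measurable_snd hUc.measurableSet).inter (measurableSet_lt h1 measurable_const))
  rw [Measure.volume_eq_prod, Measure.prod_apply_symm hmD]
  have hF : ∀ w : κ → ℝ, volume ((fun x : ι → ℝ => (x, w)) ⁻¹' {p : (ι → ℝ) × (κ → ℝ) | p.1 ∈ T ∧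
      p.2 ∈ U ∧ p.1 ⬝ᵥ p.1 + p.2 ⬝ᵥ p.2 < c}) =
      ENNReal.ofReal (U.indicator (fun w => (rhoT T c (w ⬝ᵥ w)).toReal) w) := by
    intro w
    by_cases hw : w ∈ U
    · rw [indicator_of_mem hw, ENNReal.ofReal_toReal (hrfin _)]
      unfold rhoT
      congr 1
      ext x
      simp only [mem_preimage, mem_ofPred_eq, hw, true_and]
      constructor
      · rintro ⟨h1, h2⟩; exact ⟨h1, by linarith⟩
      · rintro ⟨h1, h2⟩; exact ⟨h1, by linarith⟩
    · rw [indicator_of_notMem hw, ENNReal.ofReal_zero]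
      have : ((fun x : ι → ℝ => (x, w)) ⁻¹' {p : (ι → ℝ) × (κ → ℝ) | p.1 ∈ T ∧
          p.2 ∈ U ∧ p.1 ⬝ᵥ p.1 + p.2 ⬝ᵥ p.2 < c}) = ∅ := by
        ext x
        simp [hw]
      rw [this, measure_empty]
  conv_rhs => arg 2; ext w; rw [hF w]
  have hmU : Measurable (U.indicator fun w : κ → ℝ => (rhoT T c (w ⬝ᵥ w)).toReal) := by
    apply Measurable.indicator _ hUc.measurableSet
    exact (mr.comp continuous_dot_self.measurable).ennreal_toReal
  rw [lintegral_eq_lintegral_meas_lt volume (Filter.Eventually.of_forall fun w =>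
    indicator_nonneg (fun _ _ => ENNReal.toReal_nonneg) w) hmU.aemeasurable]
  apply setLIntegral_congr_fun measurableSet_Ioi
  intro r hr
  simp only
  congr 1
  ext w
  simp only [mem_ofPred_eq]
  by_cases hw : w ∈ U
  · rw [indicator_of_mem hw, ENNReal.ofReal_lt_iff_lt_toReal (le_of_lt hr) (hrfin _)]
    simp [hw]
  · rw [indicator_of_notMem hw]
    simp only [hw, false_and, false_iff, not_lt]
    exact le_of_lt hr

end Pool.Agent.H82.Ten
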