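import Pool.Agent.H82.Ten.TenGGb
import Pool.Agent.H82.Ten.TenFun

/-!
# The inequality for a product
-/

open MeasureTheory Set

namespace Pool.Agent.H82.Ten

variable {ι κ : Type*} [Fintype ι] [Fintype κ]

/-- T3 (from symm_block, block_ineq, GG_of_compact) -/
theorem GG_sum {T : Set (ι → ℝ)} {U : Set (κ → ℝ)} (hT : Convex ℝ T) (hTc : IsCompact T)
    (hTs : ∀ x ∈ T, -x ∈ T) (hU : Convex ℝ U) (hUc : IsCompact U) (hUs : ∀ x ∈ U, -x ∈ U)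
    (gT : GG T) (gU : GG U) : GG {z : ι ⊕ κ → ℝ | z ∘ Sum.inl ∈ T ∧ z ∘ Sum.inr ∈ U} :=
  GG_sum_of hT hTs hU hUs (fun _ _ _ hK hL hKs hLs hKT hLT hKL =>
    block_ineq hTc hUc gT gU hK hL hKs hLs hKT hLT hKL)

end Pool.Agent.H82.Ten
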