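import Pool.Agent.H82.Ten.Basic

/-!
# Compact pairs are enough; invariance under a change of the index type
-/

open MeasureTheory Set

namespace Pool.Agent.H82.Ten

variable {ι κ : Type*} [Fintype ι] [Fintype κ]

theorem exists_compact_symm {K : Set (ι → ℝ)} (hK : MeasurableSet K) (hKs : ∀ x ∈ K, -x ∈ K)
    {a : ENNReal} (ha : a < volume K) :
    ∃ C : Set (ι → ℝ), IsCompact C ∧ (∀ x ∈ C, -x ∈ C) ∧ C ⊆ K ∧ a < volume C := by
  obtain ⟨C, hCK, hC, haC⟩ := hK.exists_lt_isCompact ha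
  refine ⟨C ∪ (Neg.neg '' C), hC.union (hC.image continuous_neg), ?_, ?_, ?_⟩
  · rintro x (hx | ⟨y, hy, rfl⟩)
    · exact Or.inr ⟨x, hx, rfl⟩
    · exact Or.inl (by simpa using hy)
  · rintro x (hx | ⟨y, hy, rfl⟩)
    · exact hCK hx
    · exact hKs y (hCK hy)
  · exact haC.trans_le (measure_mono subset_union_left)

theorem GG_of_compact {T : Set (ι → ℝ)} (h : ∀ (c : ℝ) (K L : Set (ι → ℝ)), IsCompact K →
    IsCompact L → (∀ x ∈ K, -x ∈ K) → (∀ x ∈ L, -x ∈ L) → K ⊆ T → L ⊆ T →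
    (∀ x ∈ K, ∀ y ∈ L, x ⬝ᵥ y < c) →
    volume K * volume L ≤ volume {x | x ∈ T ∧ x ⬝ᵥ x < c} ^ 2) : GG T := by
  intro c K L hK hL hKs hLs hKT hLT hKL
  refine ENNReal.mul_le_of_forall_lt (fun a ha b hb => ?_)
  obtain ⟨C, hC, hCs, hCK, haC⟩ := exists_compact_symm hK hKs ha
  obtain ⟨D, hD, hDs, hDL, hbD⟩ := exists_compact_symm hL hLs hb
  refine (mul_le_mul' haC.le hbD.le).trans ?_
  exact h c C D hC hD hCs hDs (hCK.trans hKT) (hDL.trans hLT)
    (fun x hx y hy => hKL x (hCK hx) y (hDL hy))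

theorem GG_equiv (e : ι ≃ κ) {T : Set (ι → ℝ)} (h : GG T) : GG {z : κ → ℝ | z ∘ e ∈ T} := by
  intro c K L hK hL hKs hLs hKT hLT hKL
  have hmp : MeasurePreserving (MeasurableEquiv.piCongrLeft (fun _ : κ => ℝ) e)
      (volume : Measure (ι → ℝ)) (volume : Measure (κ → ℝ)) :=
    volume_measurePreserving_piCongrLeft (fun _ : κ => ℝ) e
  set f : (ι → ℝ) ≃ᵐ (κ → ℝ) := MeasurableEquiv.piCongrLeft (fun _ : κ => ℝ) e with hf
  have hfe : ∀ x : ι → ℝ, f x = x ∘ e.symm := by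
    intro x
    funext j
    obtain ⟨i, rfl⟩ := e.surjective j
    simp only [hf, Function.comp, Equiv.symm_apply_apply]
    exact Equiv.piCongrLeft_apply_apply (fun _ : κ => ℝ) e x i
  have hvol : ∀ S : Set (κ → ℝ), volume (f ⁻¹' S) = volume S := fun S =>
    hmp.measure_preimage_equiv S
  have hdot : ∀ x y : ι → ℝ, f x ⬝ᵥ f y = x ⬝ᵥ y := by
    intro x y
    rw [hfe, hfe]
    simp only [dotProduct, Function.comp]
    exact e.symm.sum_comp (fun i => x i * y i)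
  have hneg : ∀ x : ι → ℝ, f (-x) = -f x := by
    intro x
    rw [hfe, hfe]
    rfl
  have hfT : ∀ x : ι → ℝ, f x ∈ {z : κ → ℝ | z ∘ e ∈ T} ↔ x ∈ T := by
    intro x
    rw [mem_ofPred_eq, hfe]
    have : (x ∘ e.symm) ∘ e = x := by
      funext i
      simp
    rw [this]
  have key := h c (f ⁻¹' K) (f ⁻¹' L) (f.measurable hK) (f.measurable hL)
    (fun x hx => by
      rw [mem_preimage, hneg]
      exact hKs _ hx)
    (fun x hx => by
      rw [mem_preimage, hneg]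
      exact hLs _ hx)
    (fun x hx => (hfT x).1 (hKT hx)) (fun x hx => (hfT x).1 (hLT hx))
    (fun x hx y hy => by
      rw [← hdot]
      exact hKL _ hx _ hy)
  rw [hvol, hvol] at key
  have hset : {x : ι → ℝ | x ∈ T ∧ x ⬝ᵥ x < c} =
      f ⁻¹' {z : κ → ℝ | z ∈ {z : κ → ℝ | z ∘ e ∈ T} ∧ z ⬝ᵥ z < c} := by
    ext x
    simp only [mem_preimage, mem_ofPred_eq]
    have h1 := hfT x
    rw [mem_ofPred_eq] at h1
    rw [h1, hdot]
  rwa [hset, hvol] at key

end Pool.Agent.H82.Ten
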