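import Pool.Agent.H82.Ten.BM

/-!
# Products of bodies: block symmetrization
-/

open MeasureTheory Set
open scoped ENNReal

namespace Pool.Agent.H82.Ten

/-- the symmetrization in the second block -/
theorem symm_right {α β : Type*} [Fintype α] [Fintype β] {K : Set ((α → ℝ) × (β → ℝ))}
    (hK : IsCompact K) :
    ∃ K' : Set ((α → ℝ) × (β → ℝ)), IsCompact K' ∧
      (∀ x u, (x, u) ∈ K' ↔ ∃ u₁ u₂, (x, u₁) ∈ K ∧ (x, u₂) ∈ K ∧ u = (1 / 2 : ℝ) • (u₁ - u₂)) ∧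
      volume K ≤ volume K' := by
  let f : ((α → ℝ) × (β → ℝ)) × ((α → ℝ) × (β → ℝ)) → (α → ℝ) × (β → ℝ) :=
    fun p => (p.1.1, (1 / 2 : ℝ) • (p.1.2 - p.2.2))
  have hf : Continuous f := by fun_prop
  let S : Set (((α → ℝ) × (β → ℝ)) × ((α → ℝ) × (β → ℝ))) := (K ×ˢ K) ∩ {p | p.1.1 = p.2.1}
  have hS : IsCompact S := (hK.prod hK).inter_right (isClosed_eq (by fun_prop) (by fun_prop))
  have hK' : IsCompact (f '' S) := hS.image hf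
  have hmem : ∀ x u, (x, u) ∈ f '' S ↔
      ∃ u₁ u₂, (x, u₁) ∈ K ∧ (x, u₂) ∈ K ∧ u = (1 / 2 : ℝ) • (u₁ - u₂) := by
    intro x u
    constructor
    · rintro ⟨⟨⟨x₁, u₁⟩, ⟨x₂, u₂⟩⟩, ⟨⟨h1, h2⟩, h3⟩, h4⟩
      change x₁ = x₂ at h3
      subst h3
      simp only [f, Prod.mk.injEq] at h4
      obtain ⟨rfl, rfl⟩ := h4
      exact ⟨u₁, u₂, h1, h2, rfl⟩
    · rintro ⟨u₁, u₂, h1, h2, rfl⟩
      exact ⟨((x, u₁), (x, u₂)), ⟨⟨h1, h2⟩, rfl⟩, rfl⟩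
  refine ⟨f '' S, hK', hmem, ?_⟩
  rw [Measure.volume_eq_prod, Measure.prod_apply hK.measurableSet,
    Measure.prod_apply hK'.measurableSet]
  apply lintegral_mono
  intro x
  apply hd (measurable_prodMk_left hK.measurableSet) (measurable_prodMk_left hK'.measurableSet)
  intro u₁ h1 u₂ h2
  exact (hmem _ _).2 ⟨u₁, u₂, h1, h2, rfl⟩

/-- the symmetrization in the first block -/
theorem symm_left {α β : Type*} [Fintype α] [Fintype β] {K : Set ((α → ℝ) × (β → ℝ))}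
    (hK : IsCompact K) :
    ∃ K' : Set ((α → ℝ) × (β → ℝ)), IsCompact K' ∧
      (∀ x u, (x, u) ∈ K' ↔ ∃ x₁ x₂, (x₁, u) ∈ K ∧ (x₂, u) ∈ K ∧ x = (1 / 2 : ℝ) • (x₁ - x₂)) ∧
      volume K ≤ volume K' := by
  have mp : MeasurePreserving (Prod.swap : (β → ℝ) × (α → ℝ) → (α → ℝ) × (β → ℝ))
      volume volume := Measure.measurePreserving_swap
  have hK2 : IsCompact (Prod.swap ⁻¹' K : Set ((β → ℝ) × (α → ℝ))) := by
    rw [← image_swap_eq_preimage_swap]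
    exact hK.image continuous_swap
  obtain ⟨M, hM, hmem, hvol⟩ := symm_right hK2
  have hM2 : IsCompact (Prod.swap ⁻¹' M : Set ((α → ℝ) × (β → ℝ))) := by
    rw [← image_swap_eq_preimage_swap]
    exact hM.image continuous_swap
  refine ⟨Prod.swap ⁻¹' M, hM2, ?_, ?_⟩
  · intro x u
    exact hmem u x
  · rw [mp.measure_preimage hK.measurableSet.nullMeasurableSet] at hvol
    rw [← mp.measure_preimage hM2.measurableSet.nullMeasurableSet]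
    exact hvol

variable {ι κ : Type*} [Fintype ι] [Fintype κ]

/-- half differences stay in a convex symmetric set -/
theorem half_mem {γ : Type*} [Fintype γ] {V : Set (γ → ℝ)} (hV : Convex ℝ V)
    (hVs : ∀ x ∈ V, -x ∈ V) {x y : γ → ℝ} (hx : x ∈ V) (hy : y ∈ V) :
    (1 / 2 : ℝ) • (x - y) ∈ V := by
  have := hV hx (hVs y hy) (a := 1 / 2) (b := 1 / 2) (by norm_num) (by norm_num) (by norm_num)
  rwa [← smul_add, ← sub_eq_add_neg] at this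

/-- T1: block symmetrization -/
theorem symm_block {T : Set (ι → ℝ)} {U : Set (κ → ℝ)} (hT : Convex ℝ T) (hTs : ∀ x ∈ T, -x ∈ T)
    (hU : Convex ℝ U) (hUs : ∀ x ∈ U, -x ∈ U) {c : ℝ} {K L : Set ((ι → ℝ) × (κ → ℝ))}
    (hK : IsCompact K) (hL : IsCompact L) (hKs : ∀ p ∈ K, -p ∈ K) (hLs : ∀ p ∈ L, -p ∈ L)
    (hKT : K ⊆ T ×ˢ U) (hLT : L ⊆ T ×ˢ U)
    (hKL : ∀ p ∈ K, ∀ q ∈ L, p.1 ⬝ᵥ q.1 + p.2 ⬝ᵥ q.2 < c) :
    ∃ K' L' : Set ((ι → ℝ) × (κ → ℝ)), IsCompact K' ∧ IsCompact L' ∧ K' ⊆ T ×ˢ U ∧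
      L' ⊆ T ×ˢ U ∧ (∀ p ∈ K', (-p.1, p.2) ∈ K' ∧ (p.1, -p.2) ∈ K') ∧
      (∀ p ∈ L', (-p.1, p.2) ∈ L' ∧ (p.1, -p.2) ∈ L') ∧
      (∀ p ∈ K', ∀ q ∈ L', p.1 ⬝ᵥ q.1 + p.2 ⬝ᵥ q.2 < c) ∧
      volume K ≤ volume K' ∧ volume L ≤ volume L' := by
  obtain ⟨K', hK', hmK, hvK⟩ := symm_right hK
  obtain ⟨L', hL', hmL, hvL⟩ := symm_left hL
  refine ⟨K', L', hK', hL', ?_, ?_, ?_, ?_, ?_, hvK, hvL⟩
  · rintro ⟨x, u⟩ h
    obtain ⟨u₁, u₂, h1, h2, rfl⟩ := (hmK _ _).1 h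
    exact ⟨(hKT h1).1, half_mem hU hUs (hKT h1).2 (hKT h2).2⟩
  · rintro ⟨x, u⟩ h
    obtain ⟨x₁, x₂, h1, h2, rfl⟩ := (hmL _ _).1 h
    exact ⟨half_mem hT hTs (hLT h1).1 (hLT h2).1, (hLT h1).2⟩
  · rintro ⟨x, u⟩ h
    obtain ⟨u₁, u₂, h1, h2, rfl⟩ := (hmK _ _).1 h
    constructor
    · refine (hmK _ _).2 ⟨-u₂, -u₁, hKs _ h2, hKs _ h1, ?_⟩
      rw [neg_sub_neg]
    · refine (hmK _ _).2 ⟨u₂, u₁, h2, h1, ?_⟩
      rw [← smul_neg, neg_sub]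
  · rintro ⟨x, u⟩ h
    obtain ⟨x₁, x₂, h1, h2, rfl⟩ := (hmL _ _).1 h
    constructor
    · refine (hmL _ _).2 ⟨x₂, x₁, h2, h1, ?_⟩
      rw [← smul_neg, neg_sub]
    · refine (hmL _ _).2 ⟨-x₂, -x₁, hLs _ h2, hLs _ h1, ?_⟩
      rw [neg_sub_neg]
  · rintro ⟨x, u⟩ hp ⟨y, v⟩ hq
    obtain ⟨u₁, u₂, h1, h2, rfl⟩ := (hmK _ _).1 hp
    obtain ⟨y₁, y₂, h3, h4, rfl⟩ := (hmL _ _).1 hq
    have e1 := hKL _ h1 _ h3
    have e2 := hKL _ h2 _ (hLs _ h4)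
    simp only [Prod.neg_mk, dotProduct_neg, dotProduct_smul, smul_dotProduct, dotProduct_sub,
      sub_dotProduct, smul_eq_mul] at e1 e2 ⊢
    linarith

end Pool.Agent.H82.Ten
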