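import Pool.Agent.H82.Ten.TenGGa
import Pool.Agent.H82.Ten.TenSym

/-!
# The inequality for a product, from the block symmetric case
-/

open MeasureTheory Set

namespace Pool.Agent.H82.Ten

variable {ι κ : Type*} [Fintype ι] [Fintype κ]

/-- The inequality for `T × U` in the product space. -/
def BlockIneq (T : Set (ι → ℝ)) (U : Set (κ → ℝ)) : Prop :=
  ∀ (c : ℝ) (K L : Set ((ι → ℝ) × (κ → ℝ))), IsCompact K → IsCompact L →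
    (∀ p ∈ K, (-p.1, p.2) ∈ K ∧ (p.1, -p.2) ∈ K) → (∀ p ∈ L, (-p.1, p.2) ∈ L ∧ (p.1, -p.2) ∈ L) →
    K ⊆ T ×ˢ U → L ⊆ T ×ˢ U → (∀ p ∈ K, ∀ q ∈ L, p.1 ⬝ᵥ q.1 + p.2 ⬝ᵥ q.2 < c) →
    volume K * volume L ≤
      volume {p : (ι → ℝ) × (κ → ℝ) | p.1 ∈ T ∧ p.2 ∈ U ∧ p.1 ⬝ᵥ p.1 + p.2 ⬝ᵥ p.2 < c} ^ 2

theorem GG_sum_of {T : Set (ι → ℝ)} {U : Set (κ → ℝ)} (hT : Convex ℝ T)
    (hTs : ∀ x ∈ T, -x ∈ T) (hU : Convex ℝ U) (hUs : ∀ x ∈ U, -x ∈ U)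
    (hB : BlockIneq T U) : GG {z : ι ⊕ κ → ℝ | z ∘ Sum.inl ∈ T ∧ z ∘ Sum.inr ∈ U} := by
  refine GG_of_compact (fun c K L hK hL hKs hLs hKT hLT hKL => ?_)
  set f : (ι ⊕ κ → ℝ) ≃ᵐ (ι → ℝ) × (κ → ℝ) :=
    MeasurableEquiv.sumPiEquivProdPi (fun _ : ι ⊕ κ => ℝ) with hf
  have hmp : MeasurePreserving f volume volume :=
    volume_measurePreserving_sumPiEquivProdPi (fun _ : ι ⊕ κ => ℝ)
  have hfa : ∀ z : ι ⊕ κ → ℝ, f z = (z ∘ Sum.inl, z ∘ Sum.inr) := fun z => rfl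
  have hcont : Continuous f := by
    have : (f : (ι ⊕ κ → ℝ) → (ι → ℝ) × (κ → ℝ)) = fun z => (z ∘ Sum.inl, z ∘ Sum.inr) :=
      funext hfa
    rw [this]
    fun_prop
  have hvol : ∀ S : Set ((ι → ℝ) × (κ → ℝ)), volume (f ⁻¹' S) = volume S := fun S =>
    hmp.measure_preimage_equiv S
  have himg : ∀ S : Set (ι ⊕ κ → ℝ), volume (f '' S) = volume S := by
    intro S
    rw [← hvol, f.injective.preimage_image]
  have hdot : ∀ z w : ι ⊕ κ → ℝ, (f z).1 ⬝ᵥ (f w).1 + (f z).2 ⬝ᵥ (f w).2 = z ⬝ᵥ w := by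
    intro z w
    rw [hfa, hfa]
    simp only [dotProduct, Function.comp, Fintype.sum_sum_type]
  have hneg : ∀ z : ι ⊕ κ → ℝ, f (-z) = -f z := fun z => rfl
  have hs : ∀ S : Set (ι ⊕ κ → ℝ), (∀ x ∈ S, -x ∈ S) → ∀ p ∈ f '' S, -p ∈ f '' S := by
    rintro S hS p ⟨z, hz, rfl⟩
    exact ⟨-z, hS z hz, hneg z⟩
  have hsub : ∀ S : Set (ι ⊕ κ → ℝ), S ⊆ {z : ι ⊕ κ → ℝ | z ∘ Sum.inl ∈ T ∧ z ∘ Sum.inr ∈ U} →
      f '' S ⊆ T ×ˢ U := by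
    rintro S hS p ⟨z, hz, rfl⟩
    exact hS hz
  obtain ⟨K', L', hK', hL', hK'T, hL'T, hK's, hL's, hK'L', hvK, hvL⟩ :=
    symm_block (c := c) hT hTs hU hUs (hK.image hcont) (hL.image hcont) (hs K hKs) (hs L hLs)
      (hsub K hKT) (hsub L hLT) (by
        rintro p ⟨z, hz, rfl⟩ q ⟨w, hw, rfl⟩
        rw [hdot]
        exact hKL z hz w hw)
  rw [himg] at hvK hvL
  refine (mul_le_mul' hvK hvL).trans ?_
  refine (hB c K' L' hK' hL' hK's hL's hK'T hL'T hK'L').trans_eq ?_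
  congr 1
  rw [← hvol]
  congr 1
  ext z
  simp only [mem_preimage, mem_ofPred_eq]
  rw [hdot, hfa]
  simp only [and_assoc]

end Pool.Agent.H82.Ten
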